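import Pool.Agent.R919.FE.Defs

/-!
# Independent families of polarized rational Hodge structures: definitions
-/

set_option autoImplicit false

namespace Pool.Agent.R919.FE

open Matrix

variable {J : Type} {B : J → Type} [∀ j, Fintype (B j)] [∀ j, DecidableEq (B j)]

/-- The complexification of the Lie algebra of the Hodge group of the family of the `V j`: the
smallest complex space of families of matrices, closed under brackets, which contains the conjugates
of the operators `p - q` under all automorphisms of the complex numbers. -/
def hodgeLie (V : ∀ j, HodgeStructure (B j)) : Submodule ℂ (∀ j, Matrix (B j) (B j) ℂ) :=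
  sInf {U | (∀ σ : ℂ ≃+* ℂ, (fun j => (V j).D.map σ) ∈ U) ∧ ∀ x ∈ U, ∀ y ∈ U, x * y - y * x ∈ U}

/-- For all finite sets `T` of indices different from `o` the Lie algebra of the Hodge group of the
sum of the `V j` for `j ∈ T` is the direct sum of the ones of the single `V j`: it contains the
operator `p - q` of each `V j`, extended by zero. -/
def IndependentLie (V : ∀ j, HodgeStructure (B j)) (o : J) : Prop :=
  ∀ T : Finset J, o ∉ T → ∀ i ∈ T, ∃ z ∈ hodgeLie V, z i = (V i).D ∧ ∀ t ∈ T, t ≠ i → z t = 0

/-- `V` has complex multiplication by the quadratic field generated by a square root of `d`, and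
`p - q` takes only two values: the operator `p - q` is a square root of `d` times a rational
matrix. For example, the first cohomology of an elliptic curve with complex multiplication. -/
def HodgeStructure.QuadraticCM {B : Type} [Fintype B] [DecidableEq B] (V : HodgeStructure B)
    (d : ℤ) : Prop :=
  ∃ (c : ℂ) (Z : Matrix B B ℚ), c ^ 2 = d ∧ V.D = c • Z.map (algebraMap ℚ ℂ)

/-- The `V j` for `j ≠ o` have no CM part and are pairwise `Independent`, or they have complex
multiplication by pairwise different quadratic fields. -/
def Mixed (V : ∀ j, HodgeStructure (B j)) (o : J) (d : J → ℤ) : Prop :=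
  ∀ i, i ≠ o →
    ((V i).NoCM ∧ ∀ j, j ≠ o → j ≠ i → (V j).NoCM → Independent (V i) (V j)) ∨
    ((V i).QuadraticCM (d i) ∧ ∀ j, j ≠ o → j ≠ i → (V j).QuadraticCM (d j) →
      ¬ IsSquare (d i * d j))

/-- The family of the `V j` for `j ≠ o` is independent: the Lie algebras of the Hodge groups are
independent, or the conditions of `Mixed` are true. -/
def IndependentFamily (V : ∀ j, HodgeStructure (B j)) (o : J) : Prop :=
  IndependentLie V o ∨ ∃ d : J → ℤ, Mixed V o d

end Pool.Agent.R919.FE
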