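import Mathlib

/-!
# Polarized rational Hodge structures, Hodge classes on tensor powers of families
-/

set_option autoImplicit false

namespace Pool.Agent.R919.FE

open Matrix

/-- A polarized rational Hodge structure on `ℚ^B` (a direct sum of pure ones of arbitrary weights,
for example the cohomology of a smooth projective variety): the projections `e (a, b)` to the parts
of type `(a, b)` of `ℂ^B`, which are exchanged by complex conjugation, such that the part of each
weight is defined over `ℚ`, and a rational form `Q` for which the Hodge-Riemann relations hold. -/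
structure HodgeStructure (B : Type) [Fintype B] [DecidableEq B] where
  /-- the types which occur -/
  types : Finset (ℤ × ℤ)
  /-- the projections -/
  e : ℤ × ℤ → Matrix B B ℂ
  mul : ∀ a ∈ types, ∀ b ∈ types, e a * e b = if a = b then e a else 0
  sum : ∑ a ∈ types, e a = 1
  conj : ∀ a ∈ types, a.swap ∈ types ∧ (e a).map (starRingEnd ℂ) = e a.swap
  weight : ∀ w : ℤ, ∃ P : Matrix B B ℚ,
    ∑ a ∈ types with a.1 + a.2 = w, e a = P.map (algebraMap ℚ ℂ)
  /-- the form -/
  Q : Matrix B B ℚ
  orth : ∀ a ∈ types, ∀ b ∈ types, b ≠ a.swap →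
    (e a)ᵀ * Q.map (algebraMap ℚ ℂ) * e b = 0
  pos : ∀ a ∈ types, ∀ x : B → ℂ, e a *ᵥ x = x → x ≠ 0 →
    0 < (Complex.I ^ (a.1 - a.2) * (x ⬝ᵥ (Q.map (algebraMap ℚ ℂ) *ᵥ star x))).re ∧
      (Complex.I ^ (a.1 - a.2) * (x ⬝ᵥ (Q.map (algebraMap ℚ ℂ) *ᵥ star x))).im = 0

section one

variable {B : Type} [Fintype B] [DecidableEq B] (V : HodgeStructure B)

/-- The operator which is multiplication by `p - q` on the part of type `(p, q)`. -/
noncomputable def HodgeStructure.D : Matrix B B ℂ :=
  ∑ a ∈ V.types, ((a.1 - a.2 : ℤ) : ℂ) • V.e a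

/-- The rational matrix `Z` is an endomorphism of the Hodge structure (it respects the types, and
so the decomposition by `p - q`). -/
def HodgeStructure.IsEnd (Z : Matrix B B ℚ) : Prop :=
  Z.map (algebraMap ℚ ℂ) * V.D = V.D * Z.map (algebraMap ℚ ℂ)

/-- The elements of the centre of the algebra of the endomorphisms which are skew for the
polarization are zero: the Hodge group is semisimple. -/
def HodgeStructure.NoCM : Prop :=
  ∀ Z : Matrix B B ℚ, V.IsEnd Z → (∀ Y, V.IsEnd Y → Z * Y = Y * Z) → Zᵀ * V.Q + V.Q * Z = 0 → Z = 0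

end one

/-- The map from matrices of size `B` to matrices of size `B'` with the rational coefficients
`φ`. -/
def lin {B B' : Type} [Fintype B] (φ : B' → B' → B → B → ℚ) (X : Matrix B B ℂ) :
    Matrix B' B' ℂ := fun a b => ∑ c, ∑ d, (φ a b c d : ℂ) * X c d

/-- The endomorphism algebras have no common parts besides the Hodge classes: for every morphism
`φ` of rational Hodge structures from `End V` to `End V'` the image consists of endomorphisms of the
Hodge structure `V'`. In other words, the Hodge classes on `V ⊗ V ⊗ V' ⊗ V'` are sums of products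
of Hodge classes on `V ⊗ V` and on `V' ⊗ V'`. -/
def Independent {B B' : Type} [Fintype B] [DecidableEq B] [Fintype B'] [DecidableEq B']
    (V : HodgeStructure B) (V' : HodgeStructure B') : Prop :=
  ∀ φ : B' → B' → B → B → ℚ,
    (∀ X, lin φ (V.D * X - X * V.D) = V'.D * lin φ X - lin φ X * V'.D) →
      ∀ X, V'.D * lin φ X = lin φ X * V'.D

section family

variable {J : Type} {B : J → Type} [∀ j, Fintype (B j)] [∀ j, DecidableEq (B j)]
  (V : ∀ j, HodgeStructure (B j)) {κ : Type} [Fintype κ] [DecidableEq κ] (f : κ → J)

/-- The Hodge classes (rational classes of type `(p, p)`) in the tensor product of the Hodge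
structures `V (f x)` over the finite set `κ`: the rational tensors which are killed by `p - q`. -/
def hodgeClasses : Submodule ℚ ((∀ x, B (f x)) → ℚ) where
  carrier := {c | ∀ I, ∑ x, ∑ b, (V (f x)).D (I x) b * (c (Function.update I x b) : ℂ) = 0}
  zero_mem' := by
    intro I
    simp
  add_mem' := by
    intro c d hc hd I
    simp only [Pi.add_apply, Rat.cast_add, mul_add, Finset.sum_add_distrib, hc I, hd I, add_zero]
  smul_mem' := by
    intro r c hc I
    have h : ∀ x, ∑ b, (V (f x)).D (I x) b * (((r • c) (Function.update I x b) : ℚ) : ℂ) =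
        (r : ℂ) * ∑ b, (V (f x)).D (I x) b * (c (Function.update I x b) : ℂ) := by
      intro x
      rw [Finset.mul_sum]
      refine Finset.sum_congr rfl fun b _ => ?_
      rw [Pi.smul_apply, smul_eq_mul, Rat.cast_mul]
      ring
    simp only [h]
    rw [← Finset.mul_sum, hc I, mul_zero]

/-- The Hodge classes in the tensor product of the factors `V j` only, that is, over the set of all
`x` with `f x = j`, as functions which do not depend on the coordinates of the other factors. -/
def hodgeClassesOf [DecidableEq J] (j : J) : Submodule ℚ ((∀ x, B (f x)) → ℚ) where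
  carrier := {c | (∀ I I', (∀ x, f x = j → I x = I' x) → c I = c I') ∧
    ∀ I, ∑ x with f x = j, ∑ b, (V (f x)).D (I x) b * (c (Function.update I x b) : ℂ) = 0}
  zero_mem' := by
    refine ⟨fun _ _ _ => rfl, fun I => ?_⟩
    simp
  add_mem' := by
    intro c d hc hd
    refine ⟨fun I I' h => ?_, fun I => ?_⟩
    · rw [Pi.add_apply, Pi.add_apply, hc.1 I I' h, hd.1 I I' h]
    · simp only [Pi.add_apply, Rat.cast_add, mul_add, Finset.sum_add_distrib, hc.2 I, hd.2 I,
        add_zero]
  smul_mem' := by
    intro r c hc
    refine ⟨fun I I' h => ?_, fun I => ?_⟩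
    · rw [Pi.smul_apply, Pi.smul_apply, hc.1 I I' h]
    · rw [← mul_zero (r : ℂ), ← hc.2 I, Finset.mul_sum]
      refine Finset.sum_congr rfl fun x _ => ?_
      rw [Finset.mul_sum]
      refine Finset.sum_congr rfl fun b _ => ?_
      rw [Pi.smul_apply, smul_eq_mul, Rat.cast_mul]
      ring

end family

end Pool.Agent.R919.FE
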