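import Mathlib
import Pool.Agent.W437.HD.Fixed

/-!
# The Lie algebra generated by the conjugates of a family of complex matrices
-/

set_option linter.unusedSectionVars false
set_option autoImplicit false

namespace Pool.Agent.R919.FE

open Matrix

universe u v w

variable {J : Type u} {B : J → Type v} [∀ j, Fintype (B j)] [∀ j, DecidableEq (B j)]

/-- The conjugate of a family of matrices by an automorphism of the complex numbers. -/
def gal (σ : ℂ ≃+* ℂ) (x : ∀ j, Matrix (B j) (B j) ℂ) : ∀ j, Matrix (B j) (B j) ℂ :=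
  fun j => (x j).map σ

theorem gal_apply (σ : ℂ ≃+* ℂ) (x : ∀ j, Matrix (B j) (B j) ℂ) (j : J) :
    gal σ x j = (x j).map σ := rfl

theorem gal_mul (σ : ℂ ≃+* ℂ) (x y : ∀ j, Matrix (B j) (B j) ℂ) :
    gal σ (x * y) = gal σ x * gal σ y := by
  funext j
  rw [Pi.mul_apply, gal_apply, gal_apply, gal_apply, Pi.mul_apply, ← RingEquiv.coe_toRingHom σ,
    Matrix.map_mul]

theorem gal_sub (σ : ℂ ≃+* ℂ) (x y : ∀ j, Matrix (B j) (B j) ℂ) :
    gal σ (x - y) = gal σ x - gal σ y := by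
  funext j
  ext a b
  simp [gal]

theorem gal_add (σ : ℂ ≃+* ℂ) (x y : ∀ j, Matrix (B j) (B j) ℂ) :
    gal σ (x + y) = gal σ x + gal σ y := by
  funext j
  ext a b
  simp [gal]

theorem gal_zero (σ : ℂ ≃+* ℂ) : gal σ (0 : ∀ j, Matrix (B j) (B j) ℂ) = 0 := by
  funext j
  ext a b
  simp [gal]

theorem gal_smul (σ : ℂ ≃+* ℂ) (c : ℂ) (x : ∀ j, Matrix (B j) (B j) ℂ) :
    gal σ (c • x) = σ c • gal σ x := by
  funext j
  ext a b
  simp [gal]

theorem gal_gal (σ τ : ℂ ≃+* ℂ) (x : ∀ j, Matrix (B j) (B j) ℂ) :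
    gal σ (gal τ x) = gal (τ.trans σ) x := by
  funext j
  ext a b
  simp [gal]

/-- The Lie algebra generated over the complex numbers by the conjugates of `D`. -/
def G (D : ∀ j, Matrix (B j) (B j) ℂ) : Submodule ℂ (∀ j, Matrix (B j) (B j) ℂ) :=
  sInf {U | (∀ σ : ℂ ≃+* ℂ, gal σ D ∈ U) ∧ ∀ x ∈ U, ∀ y ∈ U, x * y - y * x ∈ U}

variable {D : ∀ j, Matrix (B j) (B j) ℂ}

theorem G_le {U : Submodule ℂ (∀ j, Matrix (B j) (B j) ℂ)} (h1 : ∀ σ : ℂ ≃+* ℂ, gal σ D ∈ U)
    (h2 : ∀ x ∈ U, ∀ y ∈ U, x * y - y * x ∈ U) : G D ≤ U := sInf_le ⟨h1, h2⟩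

theorem gen_mem (σ : ℂ ≃+* ℂ) : gal σ D ∈ G D := by
  rw [G, Submodule.mem_sInf]
  rintro U ⟨h1, _⟩
  exact h1 σ

theorem brk_mem {x y : ∀ j, Matrix (B j) (B j) ℂ} (hx : x ∈ G D) (hy : y ∈ G D) :
    x * y - y * x ∈ G D := by
  rw [G, Submodule.mem_sInf] at *
  rintro U ⟨h1, h2⟩
  exact h2 x (hx U ⟨h1, h2⟩) y (hy U ⟨h1, h2⟩)

theorem D_mem : D ∈ G D := by
  have h := gen_mem (D := D) (RingEquiv.refl ℂ)
  have h2 : gal (RingEquiv.refl ℂ) D = D := by
    funext j
    ext a b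
    simp [gal]
  rwa [h2] at h

/-- Induction: a property which holds for the conjugates of `D`, is linear and closed under
brackets holds for all elements. -/
theorem gal_mem (σ : ℂ ≃+* ℂ) {x : ∀ j, Matrix (B j) (B j) ℂ} (hx : x ∈ G D) :
    gal σ x ∈ G D := by
  let U : Submodule ℂ (∀ j, Matrix (B j) (B j) ℂ) :=
    { carrier := {x | gal σ x ∈ G D}
      zero_mem' := by
        change gal σ 0 ∈ G D
        rw [gal_zero]
        exact Submodule.zero_mem _
      add_mem' := by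
        intro a b ha hb
        change gal σ (a + b) ∈ G D
        rw [gal_add]
        exact Submodule.add_mem _ ha hb
      smul_mem' := by
        intro c a ha
        change gal σ (c • a) ∈ G D
        rw [gal_smul]
        exact Submodule.smul_mem _ _ ha }
  have h : G D ≤ U := by
    refine G_le (fun τ => ?_) (fun a ha b hb => ?_)
    · change gal σ (gal τ D) ∈ G D
      rw [gal_gal]
      exact gen_mem _
    · change gal σ (a * b - b * a) ∈ G D
      rw [gal_sub, gal_mul, gal_mul]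
      exact brk_mem ha hb
  exact h hx

/-- The Lie algebra of a subfamily (or of a reindexed family) is the image. -/
theorem mem_comp {J' : Type w} (φ : J' → J) {y : ∀ k : J', Matrix (B (φ k)) (B (φ k)) ℂ} :
    y ∈ G (fun k => D (φ k)) ↔ ∃ x ∈ G D, (fun k => x (φ k)) = y := by
  constructor
  · let U : Submodule ℂ (∀ k : J', Matrix (B (φ k)) (B (φ k)) ℂ) :=
      { carrier := {y | ∃ x ∈ G D, (fun k => x (φ k)) = y}
        zero_mem' := ⟨0, Submodule.zero_mem _, rfl⟩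
        add_mem' := by
          rintro _ _ ⟨a, ha, rfl⟩ ⟨b, hb, rfl⟩
          exact ⟨a + b, Submodule.add_mem _ ha hb, rfl⟩
        smul_mem' := by
          rintro c _ ⟨a, ha, rfl⟩
          exact ⟨c • a, Submodule.smul_mem _ _ ha, rfl⟩ }
    have h : G (fun k => D (φ k)) ≤ U := by
      refine G_le (fun τ => ?_) ?_
      · exact ⟨gal τ D, gen_mem _, rfl⟩
      · rintro _ ⟨a, ha, rfl⟩ _ ⟨b, hb, rfl⟩
        exact ⟨a * b - b * a, brk_mem ha hb, rfl⟩
    exact fun hy => h hy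
  · rintro ⟨x, hx, rfl⟩
    let U : Submodule ℂ (∀ j, Matrix (B j) (B j) ℂ) :=
      { carrier := {x | (fun k => x (φ k)) ∈ G (fun k => D (φ k))}
        zero_mem' := Submodule.zero_mem (G fun k => D (φ k))
        add_mem' := fun ha hb => Submodule.add_mem (G fun k => D (φ k)) ha hb
        smul_mem' := fun c _ ha => Submodule.smul_mem (G fun k => D (φ k)) c ha }
    have h : G D ≤ U := by
      refine G_le (fun τ => ?_) ?_
      · exact gen_mem (D := fun k => D (φ k)) τ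
      · intro a ha b hb
        exact brk_mem (D := fun k => D (φ k)) ha hb
    exact h hx

/-- The components of the elements of the Lie algebra. -/
def g (D : ∀ j, Matrix (B j) (B j) ℂ) (j : J) : Submodule ℂ (Matrix (B j) (B j) ℂ) :=
  (G D).map (LinearMap.proj j)

theorem mem_g {j : J} {y : Matrix (B j) (B j) ℂ} : y ∈ g D j ↔ ∃ x ∈ G D, x j = y := by
  rw [g, Submodule.mem_map]
  rfl

theorem g_brk {j : J} {x y : Matrix (B j) (B j) ℂ} (hx : x ∈ g D j) (hy : y ∈ g D j) :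
    x * y - y * x ∈ g D j := by
  obtain ⟨a, ha, rfl⟩ := mem_g.1 hx
  obtain ⟨b, hb, rfl⟩ := mem_g.1 hy
  exact mem_g.2 ⟨_, brk_mem ha hb, rfl⟩

theorem g_D {j : J} : D j ∈ g D j := mem_g.2 ⟨_, D_mem, rfl⟩

theorem g_gal (σ : ℂ ≃+* ℂ) {j : J} {x : Matrix (B j) (B j) ℂ} (hx : x ∈ g D j) :
    x.map σ ∈ g D j := by
  obtain ⟨a, ha, rfl⟩ := mem_g.1 hx
  exact mem_g.2 ⟨_, gal_mem σ ha, rfl⟩

/-- The Lie algebra of one member of the family is generated by the conjugates of its matrix. -/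
theorem g_le {j : J} {U : Submodule ℂ (Matrix (B j) (B j) ℂ)}
    (h1 : ∀ σ : ℂ ≃+* ℂ, (D j).map σ ∈ U) (h2 : ∀ x ∈ U, ∀ y ∈ U, x * y - y * x ∈ U) :
    g D j ≤ U := by
  intro y hy
  obtain ⟨x, hx, rfl⟩ := mem_g.1 hy
  have h : G D ≤ U.comap (LinearMap.proj j) := by
    refine G_le (fun τ => ?_) ?_
    · exact h1 τ
    · intro a ha b hb
      exact h2 _ ha _ hb
  exact h hx

/-- Descent: a subspace of matrices stable under all automorphisms of the complex numbers is
spanned by rational matrices. -/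
theorem span_rat {m n : Type v} [Fintype m] [Fintype n] (C : Submodule ℂ (Matrix m n ℂ))
    (hC : ∀ (σ : ℂ ≃+* ℂ), ∀ v ∈ C, v.map σ ∈ C) :
    C = Submodule.span ℂ {w | w ∈ C ∧ ∃ u : Matrix m n ℚ, w = u.map (algebraMap ℚ ℂ)} := by
  classical
  let e : (m × n → ℂ) ≃ₗ[ℂ] Matrix m n ℂ :=
    { toFun := fun f => Matrix.of fun i j => f (i, j)
      invFun := fun M => fun p => M p.1 p.2
      map_add' := fun _ _ => rfl
      map_smul' := fun _ _ => rfl
      left_inv := fun _ => rfl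
      right_inv := fun _ => rfl }
  have h := Pool.Agent.W437.HD.span_rational (C.comap (e : (m × n → ℂ) →ₗ[ℂ] Matrix m n ℂ))
    (fun σ v hv => hC σ _ hv)
  apply le_antisymm
  · intro x hx
    have hx' : e.symm x ∈ C.comap (e : (m × n → ℂ) →ₗ[ℂ] Matrix m n ℂ) := by
      change e (e.symm x) ∈ C
      rwa [LinearEquiv.apply_symm_apply]
    rw [h] at hx'
    have h3 := Submodule.mem_map_of_mem (f := (e : (m × n → ℂ) →ₗ[ℂ] Matrix m n ℂ)) hx'
    rw [Submodule.map_span] at h3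
    have h4 : (e : (m × n → ℂ) →ₗ[ℂ] Matrix m n ℂ) (e.symm x) = x := e.apply_symm_apply x
    rw [h4] at h3
    refine Submodule.span_mono ?_ h3
    rintro _ ⟨w, ⟨hw, u, rfl⟩, rfl⟩
    exact ⟨hw, Matrix.of fun i j => u (i, j), rfl⟩
  · rw [Submodule.span_le]
    rintro w ⟨hw, _⟩
    exact hw

end Pool.Agent.R919.FE
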