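import Mathlib
import Pool.Agent.R919.FE.Defs
import Pool.Agent.R919.FE.Gal

/-!
# The operator of a Hodge structure, functional calculus and positivity
-/

set_option linter.unusedSectionVars false
set_option autoImplicit false

namespace Pool.Agent.R919.FE

open Matrix Polynomial

section one

variable {B : Type} [Fintype B] [DecidableEq B] (V : HodgeStructure B)

/-- The complex matrix of a rational matrix. -/
noncomputable abbrev qc {m n : Type} (M : Matrix m n ℚ) : Matrix m n ℂ := M.map (algebraMap ℚ ℂ)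

/-- `p - q` -/
def dl (a : ℤ × ℤ) : ℤ := a.1 - a.2

theorem dl_swap (a : ℤ × ℤ) : dl a.swap = -dl a := by
  simp [dl]

theorem HodgeStructure.D_eq : V.D = ∑ a ∈ V.types, ((dl a : ℤ) : ℂ) • V.e a := rfl

theorem HodgeStructure.e_mul_sum (φ : ℤ × ℤ → ℂ) {a : ℤ × ℤ} (ha : a ∈ V.types) :
    V.e a * ∑ b ∈ V.types, φ b • V.e b = φ a • V.e a := by
  rw [Finset.mul_sum, Finset.sum_eq_single a]
  · rw [mul_smul_comm, V.mul a ha a ha, if_pos rfl]
  · intro b hb hba
    rw [mul_smul_comm, V.mul a ha b hb, if_neg (Ne.symm hba), smul_zero]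
  · intro h
    exact absurd ha h

theorem HodgeStructure.sum_mul_e (φ : ℤ × ℤ → ℂ) {a : ℤ × ℤ} (ha : a ∈ V.types) :
    (∑ b ∈ V.types, φ b • V.e b) * V.e a = φ a • V.e a := by
  rw [Finset.sum_mul, Finset.sum_eq_single a]
  · rw [smul_mul_assoc, V.mul a ha a ha, if_pos rfl]
  · intro b hb hba
    rw [smul_mul_assoc, V.mul b hb a ha, if_neg hba, smul_zero]
  · intro h
    exact absurd ha h

/-- The form as a sum. -/
theorem HodgeStructure.form_sum (φ ψ : ℤ × ℤ → ℂ) :
    (∑ a ∈ V.types, φ a • V.e a)ᵀ * qc V.Q * (∑ b ∈ V.types, ψ b • V.e b) =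
      ∑ a ∈ V.types, (φ a * ψ a.swap) • ((V.e a)ᵀ * qc V.Q * V.e a.swap) := by
  rw [transpose_sum, Finset.sum_mul, Finset.sum_mul]
  refine Finset.sum_congr rfl fun a ha => ?_
  rw [Finset.mul_sum, Finset.sum_eq_single a.swap]
  · rw [transpose_smul, smul_mul_assoc, smul_mul_smul_comm]
  · intro b hb hba
    rw [transpose_smul, smul_mul_assoc, smul_mul_smul_comm, V.orth a ha b hb hba, smul_zero]
  · intro h
    exact absurd (V.conj a ha).1 h

theorem HodgeStructure.sum_one : ∑ a ∈ V.types, (1 : ℂ) • V.e a = 1 := by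
  simp only [one_smul]
  exact V.sum

theorem HodgeStructure.spD : V.Dᵀ * qc V.Q + qc V.Q * V.D = 0 := by
  have h1 : V.Dᵀ * qc V.Q = ∑ a ∈ V.types, (((dl a : ℤ) : ℂ) * 1) •
      ((V.e a)ᵀ * qc V.Q * V.e a.swap) := by
    rw [← V.form_sum (fun a => ((dl a : ℤ) : ℂ)) (fun _ => 1), V.sum_one, mul_one]
    rfl
  have h2 : qc V.Q * V.D = ∑ a ∈ V.types, (1 * ((dl a.swap : ℤ) : ℂ)) •
      ((V.e a)ᵀ * qc V.Q * V.e a.swap) := by
    rw [← V.form_sum (fun _ => 1) (fun a => ((dl a : ℤ) : ℂ)), V.sum_one, transpose_one, one_mul]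
    rfl
  rw [h1, h2, ← Finset.sum_add_distrib]
  refine Finset.sum_eq_zero fun a _ => ?_
  rw [← add_smul, dl_swap]
  have : ((dl a : ℤ) : ℂ) * 1 + 1 * ((-dl a : ℤ) : ℂ) = 0 := by
    push_cast
    ring
  rw [this, zero_smul]

/-- The Weil operator. -/
noncomputable def HodgeStructure.C : Matrix B B ℂ := ∑ a ∈ V.types, Complex.I ^ (dl a) • V.e a

/-- The inverse of the Weil operator. -/
noncomputable def HodgeStructure.Ci : Matrix B B ℂ :=
  ∑ a ∈ V.types, Complex.I ^ (-dl a) • V.e a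

theorem HodgeStructure.C_Ci : V.C * V.Ci = 1 := by
  rw [HodgeStructure.C, Finset.sum_mul, ← V.sum]
  refine Finset.sum_congr rfl fun a ha => ?_
  rw [smul_mul_assoc, HodgeStructure.Ci, V.e_mul_sum _ ha, smul_smul, ← zpow_add₀ Complex.I_ne_zero,
    add_neg_cancel, zpow_zero, one_smul]

theorem HodgeStructure.Ci_C : V.Ci * V.C = 1 := mul_eq_one_comm.1 V.C_Ci

theorem HodgeStructure.C_form : V.Cᵀ * qc V.Q * V.C = qc V.Q := by
  have h1 : V.Cᵀ * qc V.Q * V.C = ∑ a ∈ V.types, (Complex.I ^ (dl a) * Complex.I ^ (dl a.swap)) •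
      ((V.e a)ᵀ * qc V.Q * V.e a.swap) := by
    rw [← V.form_sum (fun a => Complex.I ^ (dl a)) (fun a => Complex.I ^ (dl a))]
    rfl
  have h2 : qc V.Q = ∑ a ∈ V.types, ((1 : ℂ) * 1) • ((V.e a)ᵀ * qc V.Q * V.e a.swap) := by
    rw [← V.form_sum (fun _ => 1) (fun _ => 1), V.sum_one, transpose_one, one_mul, mul_one]
  rw [h1]
  conv_rhs => rw [h2]
  refine Finset.sum_congr rfl fun a _ => ?_
  rw [dl_swap, ← zpow_add₀ Complex.I_ne_zero, add_neg_cancel, zpow_zero, one_mul]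

/-- Functional calculus for the commutator with `D`. -/
noncomputable def HodgeStructure.T (φ : ℤ → ℂ) (x : Matrix B B ℂ) : Matrix B B ℂ :=
  ∑ a ∈ V.types, ∑ b ∈ V.types, φ (dl a - dl b) • (V.e a * x * V.e b)

theorem HodgeStructure.T_const (c : ℂ) (x : Matrix B B ℂ) : V.T (fun _ => c) x = c • x := by
  have h : x = ∑ a ∈ V.types, ∑ b ∈ V.types, V.e a * x * V.e b := by
    have h1 : (∑ a ∈ V.types, V.e a) * x * (∑ b ∈ V.types, V.e b) = x := by
      rw [V.sum, one_mul, mul_one]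
    conv_lhs => rw [← h1]
    rw [Finset.sum_mul, Finset.sum_mul]
    exact Finset.sum_congr rfl fun a _ => Finset.mul_sum _ _ _
  conv_rhs => rw [h]
  rw [HodgeStructure.T, Finset.smul_sum]
  exact Finset.sum_congr rfl fun a _ => Finset.smul_sum.symm

theorem HodgeStructure.T_add (φ ψ : ℤ → ℂ) (x : Matrix B B ℂ) :
    V.T (fun m => φ m + ψ m) x = V.T φ x + V.T ψ x := by
  rw [HodgeStructure.T, HodgeStructure.T, HodgeStructure.T, ← Finset.sum_add_distrib]
  refine Finset.sum_congr rfl fun a _ => ?_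
  rw [← Finset.sum_add_distrib]
  exact Finset.sum_congr rfl fun b _ => add_smul _ _ _

theorem HodgeStructure.T_ad (φ : ℤ → ℂ) (x : Matrix B B ℂ) :
    V.D * V.T φ x - V.T φ x * V.D = V.T (fun m => (m : ℂ) * φ m) x := by
  rw [HodgeStructure.T, HodgeStructure.T, Finset.mul_sum, Finset.sum_mul,
    ← Finset.sum_sub_distrib]
  refine Finset.sum_congr rfl fun a ha => ?_
  rw [Finset.mul_sum, Finset.sum_mul, ← Finset.sum_sub_distrib]
  refine Finset.sum_congr rfl fun b hb => ?_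
  have h1 : V.D * V.e a = ((dl a : ℤ) : ℂ) • V.e a := V.sum_mul_e _ ha
  have h2 : V.e b * V.D = ((dl b : ℤ) : ℂ) • V.e b := V.e_mul_sum _ hb
  rw [mul_smul_comm, smul_mul_assoc, ← mul_assoc, ← mul_assoc, h1, mul_assoc (V.e a * x), h2,
    smul_mul_assoc, smul_mul_assoc, mul_smul_comm, smul_smul, smul_smul, ← sub_smul]
  congr 1
  push_cast
  ring

theorem HodgeStructure.T_weil (x : Matrix B B ℂ) :
    V.T (fun m => Complex.I ^ m) x = V.C * x * V.Ci := by
  rw [HodgeStructure.C, HodgeStructure.Ci, Finset.sum_mul, Finset.sum_mul, HodgeStructure.T]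
  refine Finset.sum_congr rfl fun a _ => ?_
  rw [Finset.mul_sum]
  refine Finset.sum_congr rfl fun b _ => ?_
  rw [smul_mul_assoc, smul_mul_smul_comm, ← zpow_add₀ Complex.I_ne_zero, sub_eq_add_neg]

theorem HodgeStructure.T_congr {φ ψ : ℤ → ℂ}
    (h : ∀ a ∈ V.types, ∀ b ∈ V.types, φ (dl a - dl b) = ψ (dl a - dl b)) (x : Matrix B B ℂ) :
    V.T φ x = V.T ψ x := by
  refine Finset.sum_congr rfl fun a ha => Finset.sum_congr rfl fun b hb => ?_
  rw [h a ha b hb]

/-- A matrix whose quadratic form is real is hermitian. -/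
theorem isHermitian_of_real {N : Matrix B B ℂ}
    (h : ∀ x : B → ℂ, (star x ⬝ᵥ (N *ᵥ x)).im = 0) : N.IsHermitian := by
  rw [← Matrix.isSymmetric_toEuclideanLin_iff, LinearMap.isSymmetric_iff_inner_map_self_real]
  intro v
  have h1 := h (WithLp.ofLp v)
  have h2 : inner ℂ (N.toEuclideanLin v) v = star (star (WithLp.ofLp v) ⬝ᵥ (N *ᵥ (WithLp.ofLp v))) := by
    rw [EuclideanSpace.inner_eq_star_dotProduct, star_dotProduct, star_star]
    rw [dotProduct_comm]
    rfl
  rw [h2]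
  have h3 : (star (star (WithLp.ofLp v) ⬝ᵥ (N *ᵥ (WithLp.ofLp v)))).im = 0 := by
    simpa using h1
  exact Complex.conj_eq_iff_im.2 h3

end one

end Pool.Agent.R919.FE
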