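import Mathlib
import Pool.Agent.R919.FE.Hdg

/-!
# Positivity of the trace form
-/

set_option linter.unusedSectionVars false
set_option autoImplicit false

namespace Pool.Agent.R919.FE

open Matrix

section one

variable {B : Type} [Fintype B] [DecidableEq B] (V : HodgeStructure B)

theorem HodgeStructure.star_e {a : ℤ × ℤ} (ha : a ∈ V.types) (x : B → ℂ) :
    star (V.e a *ᵥ x) = V.e a.swap *ᵥ star x := by
  rw [← (V.conj a ha).2]
  funext i
  simp [mulVec, dotProduct]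

theorem HodgeStructure.sum_e (x : B → ℂ) : ∑ a ∈ V.types, V.e a *ᵥ x = x := by
  rw [← sum_mulVec, V.sum, one_mulVec]

theorem HodgeStructure.pair_e {a b : ℤ × ℤ} (ha : a ∈ V.types) (hb : b ∈ V.types) (hab : a ≠ b)
    (x : B → ℂ) : (V.e a *ᵥ x) ⬝ᵥ (qc V.Q *ᵥ star (V.e b *ᵥ x)) = 0 := by
  rw [V.star_e hb]
  have h1 : (V.e a *ᵥ x) ⬝ᵥ (qc V.Q *ᵥ (V.e b.swap *ᵥ star x)) =
      x ⬝ᵥ (((V.e a)ᵀ * qc V.Q * V.e b.swap) *ᵥ star x) := by
    rw [← mulVec_mulVec, ← mulVec_mulVec, dotProduct_mulVec x, ← mulVec_transpose,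
      transpose_transpose]
  rw [h1, V.orth a ha b.swap (V.conj b hb).1 ?_, zero_mulVec, dotProduct_zero]
  intro h
  exact hab (Prod.swap_injective h).symm

theorem HodgeStructure.quad (x : B → ℂ) :
    star x ⬝ᵥ (((qc V.Q)ᵀ * V.C) *ᵥ x) =
      ∑ a ∈ V.types, Complex.I ^ (dl a) * ((V.e a *ᵥ x) ⬝ᵥ (qc V.Q *ᵥ star (V.e a *ᵥ x))) := by
  have h1 : star x ⬝ᵥ (((qc V.Q)ᵀ * V.C) *ᵥ x) = (V.C *ᵥ x) ⬝ᵥ (qc V.Q *ᵥ star x) := by
    rw [← mulVec_mulVec, mulVec_transpose, dotProduct_comm, ← dotProduct_mulVec]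
  have h2 : star x = ∑ b ∈ V.types, star (V.e b *ᵥ x) := by
    conv_lhs => rw [← V.sum_e x]
    rw [star_sum]
  have h3 : V.C *ᵥ x = ∑ a ∈ V.types, Complex.I ^ (dl a) • (V.e a *ᵥ x) := by
    rw [HodgeStructure.C, sum_mulVec]
    exact Finset.sum_congr rfl fun a _ => smul_mulVec _ _ _
  rw [h1, h3, sum_dotProduct]
  refine Finset.sum_congr rfl fun a ha => ?_
  rw [smul_dotProduct, smul_eq_mul, h2, mulVec_sum, dotProduct_sum, Finset.sum_eq_single a]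
  · intro b hb hba
    exact V.pair_e ha hb (Ne.symm hba) x
  · intro h
    exact absurd ha h

theorem HodgeStructure.e_idem {a : ℤ × ℤ} (ha : a ∈ V.types) (x : B → ℂ) :
    V.e a *ᵥ (V.e a *ᵥ x) = V.e a *ᵥ x := by
  rw [mulVec_mulVec, V.mul a ha a ha, if_pos rfl]

theorem HodgeStructure.term_im {a : ℤ × ℤ} (ha : a ∈ V.types) (x : B → ℂ) :
    (Complex.I ^ (dl a) * ((V.e a *ᵥ x) ⬝ᵥ (qc V.Q *ᵥ star (V.e a *ᵥ x)))).im = 0 := by
  by_cases h : V.e a *ᵥ x = 0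
  · rw [h, zero_dotProduct, mul_zero, Complex.zero_im]
  · exact (V.pos a ha _ (V.e_idem ha x) h).2

theorem HodgeStructure.term_re {a : ℤ × ℤ} (ha : a ∈ V.types) (x : B → ℂ) :
    0 ≤ (Complex.I ^ (dl a) * ((V.e a *ᵥ x) ⬝ᵥ (qc V.Q *ᵥ star (V.e a *ᵥ x)))).re := by
  by_cases h : V.e a *ᵥ x = 0
  · rw [h, zero_dotProduct, mul_zero, Complex.zero_re]
  · exact (V.pos a ha _ (V.e_idem ha x) h).1.le

open scoped ComplexOrder in
theorem HodgeStructure.posDef : ((qc V.Q)ᵀ * V.C).PosDef := by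
  have him : ∀ x : B → ℂ, (star x ⬝ᵥ (((qc V.Q)ᵀ * V.C) *ᵥ x)).im = 0 := by
    intro x
    rw [V.quad, Complex.im_sum]
    exact Finset.sum_eq_zero fun a ha => V.term_im ha x
  refine PosDef.of_dotProduct_mulVec_pos (isHermitian_of_real him) fun x hx => ?_
  rw [Complex.lt_def]
  refine ⟨?_, by rw [him x, Complex.zero_im]⟩
  rw [Complex.zero_re, V.quad, Complex.re_sum]
  obtain ⟨a, ha, hax⟩ : ∃ a ∈ V.types, V.e a *ᵥ x ≠ 0 := by
    by_contra h
    push Not at h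
    apply hx
    rw [← V.sum_e x]
    exact Finset.sum_eq_zero h
  exact Finset.sum_pos' (fun b hb => V.term_re hb x)
    ⟨a, ha, (V.pos a ha _ (V.e_idem ha x) hax).1⟩

open scoped MatrixOrder ComplexOrder in
theorem exists_sqrt {N : Matrix B B ℂ} (hN : N.PosDef) :
    ∃ y : Matrix B B ℂ, IsUnit y ∧ N = star y * y :=
  CStarAlgebra.isStrictlyPositive_iff_eq_star_mul_self.mp hN.isStrictlyPositive

theorem trace_mul_conj (A : Matrix B B ℂ) :
    trace (A * Aᴴ) = ((∑ i, ∑ j, ‖A i j‖ ^ 2 : ℝ) : ℂ) := by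
  rw [trace]
  push_cast
  refine Finset.sum_congr rfl fun i _ => ?_
  rw [diag_apply, mul_apply]
  refine Finset.sum_congr rfl fun j _ => ?_
  rw [conjTranspose_apply, Complex.star_def, Complex.mul_conj']

/-- The adjoint of an element of the Lie algebra. -/
noncomputable def HodgeStructure.dag (x : Matrix B B ℂ) : Matrix B B ℂ :=
  -(V.C * x * V.Ci).map (starRingEnd ℂ)

theorem HodgeStructure.dag_form {x : Matrix B B ℂ} (hx : xᵀ * qc V.Q + qc V.Q * x = 0) :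
    ((qc V.Q)ᵀ * V.C) * x = (V.dag x)ᴴ * ((qc V.Q)ᵀ * V.C) := by
  have h1 : (V.dag x)ᴴ = -(V.C * x * V.Ci)ᵀ := by
    rw [HodgeStructure.dag, conjTranspose_neg]
    congr 1
    ext i j
    rw [conjTranspose_apply, map_apply, transpose_apply, Complex.star_def, Complex.conj_conj]
  have h2 : qc V.Q * V.Ci = V.Cᵀ * qc V.Q := by
    have h3 : V.Cᵀ * qc V.Q * V.C * V.Ci = qc V.Q * V.Ci := by rw [V.C_form]
    rw [mul_assoc _ V.C, V.C_Ci, mul_one] at h3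
    exact h3.symm
  have h2' : qc V.Q * V.C = V.Ciᵀ * qc V.Q := by
    have h3 : V.Ciᵀ * (V.Cᵀ * qc V.Q * V.C) = V.Ciᵀ * qc V.Q := by rw [V.C_form]
    rw [← mul_assoc, ← mul_assoc, ← transpose_mul, V.C_Ci, transpose_one, one_mul] at h3
    exact h3
  have hx' : qc V.Q * x = -(xᵀ * qc V.Q) := by
    rw [eq_neg_iff_add_eq_zero, add_comm]
    exact hx
  have h4 : qc V.Q * (V.C * x * V.Ci) = -(V.Ciᵀ * xᵀ * V.Cᵀ * qc V.Q) := by
    calc qc V.Q * (V.C * x * V.Ci) = (qc V.Q * V.C) * x * V.Ci := by noncomm_ring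
      _ = V.Ciᵀ * (qc V.Q * x) * V.Ci := by rw [h2']; noncomm_ring
      _ = -(V.Ciᵀ * xᵀ * (qc V.Q * V.Ci)) := by rw [hx']; noncomm_ring
      _ = -(V.Ciᵀ * xᵀ * V.Cᵀ * qc V.Q) := by rw [h2]; noncomm_ring
  have h5 : (V.C * x * V.Ci)ᵀ * (qc V.Q)ᵀ = -((qc V.Q)ᵀ * (V.C * x * V.Ci)) := by
    rw [← transpose_mul, h4, transpose_neg]
    congr 1
    simp only [transpose_mul, transpose_transpose]
    noncomm_ring
  rw [h1]
  calc (qc V.Q)ᵀ * V.C * x = (qc V.Q)ᵀ * (V.C * x * (V.Ci * V.C)) := by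
        rw [V.Ci_C, mul_one, mul_assoc]
    _ = (qc V.Q)ᵀ * (V.C * x * V.Ci) * V.C := by noncomm_ring
    _ = -((V.C * x * V.Ci)ᵀ * (qc V.Q)ᵀ) * V.C := by rw [h5, neg_neg]
    _ = -(V.C * x * V.Ci)ᵀ * ((qc V.Q)ᵀ * V.C) := by noncomm_ring

/-- The trace form of an element and its adjoint. -/
theorem HodgeStructure.trace_dag {x : Matrix B B ℂ} (hx : xᵀ * qc V.Q + qc V.Q * x = 0) :
    ∃ r : ℝ, 0 ≤ r ∧ trace (x * V.dag x) = (r : ℂ) ∧ (r = 0 → x = 0) := by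
  obtain ⟨y, ⟨u, hu⟩, hy⟩ := exists_sqrt V.posDef
  obtain ⟨yi, hyi⟩ : ∃ yi, yi = ((u⁻¹ : (Matrix B B ℂ)ˣ) : Matrix B B ℂ) := ⟨_, rfl⟩
  have hy1 : yi * y = 1 := by rw [hyi, ← hu, Units.inv_mul]
  have hy2 : y * yi = 1 := by rw [hyi, ← hu, Units.mul_inv]
  have hy3 : yiᴴ * yᴴ = 1 := by rw [← conjTranspose_mul, hy2, conjTranspose_one]
  have h1 := V.dag_form hx
  rw [hy, star_eq_conjTranspose] at h1
  -- `y x yi = (y (dag x) yi)ᴴ`
  have h2 : y * x * yi = (y * V.dag x * yi)ᴴ := by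
    have h3 : yiᴴ * (yᴴ * y * x) * yi = y * x * yi := by
      calc yiᴴ * (yᴴ * y * x) * yi = (yiᴴ * yᴴ) * y * x * yi := by noncomm_ring
        _ = y * x * yi := by rw [hy3, one_mul]
    have h4 : yiᴴ * ((V.dag x)ᴴ * (yᴴ * y)) * yi = (y * V.dag x * yi)ᴴ := by
      rw [conjTranspose_mul, conjTranspose_mul]
      calc yiᴴ * ((V.dag x)ᴴ * (yᴴ * y)) * yi = yiᴴ * ((V.dag x)ᴴ * yᴴ) * (y * yi) := by
            noncomm_ring
        _ = yiᴴ * ((V.dag x)ᴴ * yᴴ) := by rw [hy2, mul_one]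
    rw [← h3, ← h4, h1]
  have h5 : y * V.dag x * yi = (y * x * yi)ᴴ := by rw [h2, conjTranspose_conjTranspose]
  have h6 : trace (x * V.dag x) = trace ((y * x * yi) * (y * x * yi)ᴴ) := by
    rw [← h5]
    calc trace (x * V.dag x) = trace (x * V.dag x * (yi * y)) := by rw [hy1, mul_one]
      _ = trace (y * (x * V.dag x * yi)) := by rw [trace_mul_comm y, mul_assoc (x * V.dag x)]
      _ = trace (y * x * (yi * y) * V.dag x * yi) := by
          rw [hy1]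
          congr 1
          noncomm_ring
      _ = trace (y * x * yi * (y * V.dag x * yi)) := by
          congr 1
          noncomm_ring
  refine ⟨∑ i, ∑ j, ‖(y * x * yi) i j‖ ^ 2, by positivity, by rw [h6, trace_mul_conj], fun h => ?_⟩
  have h7 : y * x * yi = 0 := by
    ext i j
    have h8 := (Finset.sum_eq_zero_iff_of_nonneg (fun i _ => by positivity)).1 h i
      (Finset.mem_univ i)
    have h9 := (Finset.sum_eq_zero_iff_of_nonneg (fun j _ => by positivity)).1 h8 j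
      (Finset.mem_univ j)
    simpa using h9
  calc x = (yi * y) * x * (yi * y) := by rw [hy1, one_mul, mul_one]
    _ = yi * (y * x * yi) * y := by noncomm_ring
    _ = 0 := by rw [h7, mul_zero, zero_mul]

end one

end Pool.Agent.R919.FE
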