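import Mathlib
import Pool.Agent.R919.FE.Pos

/-!
# The trace form on the Lie algebra of a finite family is nondegenerate
-/

set_option linter.unusedSectionVars false
set_option autoImplicit false

namespace Pool.Agent.R919.FE

open Matrix Polynomial

section single

variable {B : Type} [Fintype B] [DecidableEq B] (V : HodgeStructure B)

theorem HodgeStructure.T_poly {U : Submodule ℂ (Matrix B B ℂ)}
    (hU : ∀ x ∈ U, V.D * x - x * V.D ∈ U) (q : ℂ[X]) {x : Matrix B B ℂ} (hx : x ∈ U) :
    V.T (fun m => q.eval (m : ℂ)) x ∈ U := by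
  induction q using Polynomial.induction_on with
  | C a =>
    simp only [eval_C]
    rw [V.T_const]
    exact Submodule.smul_mem _ _ hx
  | add p q hp hq =>
    simp only [eval_add]
    rw [V.T_add (fun m => p.eval (m : ℂ)) (fun m => q.eval (m : ℂ))]
    exact Submodule.add_mem _ hp hq
  | monomial n a h =>
    have h1 := hU _ h
    rw [V.T_ad] at h1
    have h2 : (fun m : ℤ => (m : ℂ) * (Polynomial.C a * X ^ n : ℂ[X]).eval (m : ℂ)) =
        fun m : ℤ => (Polynomial.C a * X ^ (n + 1) : ℂ[X]).eval (m : ℂ) := by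
      funext m
      simp only [eval_mul, eval_C, eval_pow, eval_X]
      ring
    rw [h2] at h1
    exact h1

end single

theorem exists_interp (s : Finset ℤ) (φ : ℤ → ℂ) : ∃ q : ℂ[X], ∀ m ∈ s, q.eval (m : ℂ) = φ m := by
  refine ⟨Lagrange.interpolate s (fun m : ℤ => (m : ℂ)) φ, fun m hm => ?_⟩
  exact Lagrange.eval_interpolate_at_node φ (fun a _ b _ h => by exact_mod_cast h) hm

section single2

variable {B : Type} [Fintype B] [DecidableEq B] (V : HodgeStructure B)

theorem HodgeStructure.T_mem {U : Submodule ℂ (Matrix B B ℂ)}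
    (hU : ∀ x ∈ U, V.D * x - x * V.D ∈ U) (φ : ℤ → ℂ) {x : Matrix B B ℂ} (hx : x ∈ U) :
    V.T φ x ∈ U := by
  obtain ⟨q, hq⟩ := exists_interp
    ((V.types ×ˢ V.types).image fun p => dl p.1 - dl p.2) φ
  rw [V.T_congr (ψ := fun m => q.eval (m : ℂ)) (fun a ha b hb => ?_)]
  · exact V.T_poly hU q hx
  · refine (hq _ ?_).symm
    rw [Finset.mem_image]
    exact ⟨(a, b), Finset.mem_product.2 ⟨ha, hb⟩, rfl⟩

end single2

section fam

variable {J : Type} {B : J → Type} [∀ j, Fintype (B j)] [∀ j, DecidableEq (B j)]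
  (V : ∀ j, HodgeStructure (B j))

/-- The family of the operators. -/
noncomputable def DD : ∀ j, Matrix (B j) (B j) ℂ := fun j => (V j).D

theorem T_polyF {U : Submodule ℂ (∀ j, Matrix (B j) (B j) ℂ)}
    (hU : ∀ x ∈ U, DD V * x - x * DD V ∈ U) (q : ℂ[X]) {x : ∀ j, Matrix (B j) (B j) ℂ}
    (hx : x ∈ U) : (fun j => (V j).T (fun m => q.eval (m : ℂ)) (x j)) ∈ U := by
  induction q using Polynomial.induction_on with
  | C a =>
    simp only [eval_C]
    have h : (fun j => (V j).T (fun _ => a) (x j)) = a • x := by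
      funext j
      exact (V j).T_const a (x j)
    rw [h]
    exact Submodule.smul_mem _ _ hx
  | add p q hp hq =>
    simp only [eval_add]
    have h : (fun j => (V j).T (fun m => p.eval (m : ℂ) + q.eval (m : ℂ)) (x j)) =
        (fun j => (V j).T (fun m => p.eval (m : ℂ)) (x j)) +
          fun j => (V j).T (fun m => q.eval (m : ℂ)) (x j) := by
      funext j
      exact (V j).T_add _ _ _
    rw [h]
    exact Submodule.add_mem _ hp hq
  | monomial n a h =>
    have h1 := hU _ h
    have h2 : (DD V * (fun j => (V j).T (fun m => (Polynomial.C a * X ^ n : ℂ[X]).eval (m : ℂ)) (x j)) -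
        (fun j => (V j).T (fun m => (Polynomial.C a * X ^ n : ℂ[X]).eval (m : ℂ)) (x j)) * DD V) =
        fun j => (V j).T (fun m => (Polynomial.C a * X ^ (n + 1) : ℂ[X]).eval (m : ℂ)) (x j) := by
      funext j
      have h3 := (V j).T_ad (fun m => (Polynomial.C a * X ^ n : ℂ[X]).eval (m : ℂ)) (x j)
      have h2 : (fun m : ℤ => (m : ℂ) * (Polynomial.C a * X ^ n : ℂ[X]).eval (m : ℂ)) =
          fun m : ℤ => (Polynomial.C a * X ^ (n + 1) : ℂ[X]).eval (m : ℂ) := by
        funext m
        simp only [eval_mul, eval_C, eval_pow, eval_X]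
        ring
      rw [h2] at h3
      exact h3
    rw [h2] at h1
    exact h1

theorem T_memF [Fintype J] [DecidableEq J] {U : Submodule ℂ (∀ j, Matrix (B j) (B j) ℂ)}
    (hU : ∀ x ∈ U, DD V * x - x * DD V ∈ U) (φ : ℤ → ℂ) {x : ∀ j, Matrix (B j) (B j) ℂ}
    (hx : x ∈ U) : (fun j => (V j).T φ (x j)) ∈ U := by
  obtain ⟨q, hq⟩ := exists_interp
    (Finset.univ.biUnion fun j => ((V j).types ×ˢ (V j).types).image fun p => dl p.1 - dl p.2) φ
  have h : (fun j => (V j).T φ (x j)) = fun j => (V j).T (fun m => q.eval (m : ℂ)) (x j) := by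
    funext j
    refine (V j).T_congr (fun a ha b hb => ?_) _
    refine (hq _ ?_).symm
    rw [Finset.mem_biUnion]
    refine ⟨j, Finset.mem_univ _, ?_⟩
    rw [Finset.mem_image]
    exact ⟨(a, b), Finset.mem_product.2 ⟨ha, hb⟩, rfl⟩
  rw [h]
  exact T_polyF V hU q hx

theorem map_qc (σ : ℂ ≃+* ℂ) {m n : Type} (M : Matrix m n ℚ) : (qc M).map σ = qc M := by
  ext i j
  simp

/-- The elements of the Lie algebra are skew for the forms. -/
theorem spG {x : ∀ j, Matrix (B j) (B j) ℂ} (hx : x ∈ G (DD V)) (j : J) :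
    (x j)ᵀ * qc (V j).Q + qc (V j).Q * x j = 0 := by
  let U : Submodule ℂ (∀ j, Matrix (B j) (B j) ℂ) :=
    { carrier := {x | (x j)ᵀ * qc (V j).Q + qc (V j).Q * x j = 0}
      zero_mem' := by
        change ((0 : Matrix (B j) (B j) ℂ))ᵀ * qc (V j).Q + qc (V j).Q * 0 = 0
        rw [transpose_zero, zero_mul, mul_zero, add_zero]
      add_mem' := by
        intro a b ha hb
        change (a j + b j)ᵀ * qc (V j).Q + qc (V j).Q * (a j + b j) = 0
        have ha' : (a j)ᵀ * qc (V j).Q + qc (V j).Q * a j = 0 := ha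
        have hb' : (b j)ᵀ * qc (V j).Q + qc (V j).Q * b j = 0 := hb
        rw [transpose_add, add_mul, mul_add]
        calc (a j)ᵀ * qc (V j).Q + (b j)ᵀ * qc (V j).Q + (qc (V j).Q * a j + qc (V j).Q * b j)
            = ((a j)ᵀ * qc (V j).Q + qc (V j).Q * a j) +
              ((b j)ᵀ * qc (V j).Q + qc (V j).Q * b j) := by abel
          _ = 0 := by rw [ha', hb', add_zero]
      smul_mem' := by
        intro c a ha
        change (c • a j)ᵀ * qc (V j).Q + qc (V j).Q * (c • a j) = 0
        have ha' : (a j)ᵀ * qc (V j).Q + qc (V j).Q * a j = 0 := ha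
        rw [transpose_smul, smul_mul_assoc, mul_smul_comm, ← smul_add, ha', smul_zero] }
  have h : G (DD V) ≤ U := by
    refine G_le (fun σ => ?_) (fun a ha b hb => ?_)
    · change ((V j).D.map σ)ᵀ * qc (V j).Q + qc (V j).Q * (V j).D.map σ = 0
      have h1 : ((V j).Dᵀ * qc (V j).Q + qc (V j).Q * (V j).D).map σ =
          (0 : Matrix (B j) (B j) ℂ).map σ := by rw [(V j).spD]
      rw [← RingEquiv.coe_toRingHom σ] at h1
      rw [Matrix.map_add _ (map_add _), Matrix.map_mul, Matrix.map_mul,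
        Matrix.map_zero _ (map_zero _), RingEquiv.coe_toRingHom, map_qc σ (V j).Q] at h1
      exact h1
    · change (a j * b j - b j * a j)ᵀ * qc (V j).Q + qc (V j).Q * (a j * b j - b j * a j) = 0
      have ha' : (a j)ᵀ * qc (V j).Q + qc (V j).Q * a j = 0 := ha
      have hb' : (b j)ᵀ * qc (V j).Q + qc (V j).Q * b j = 0 := hb
      have ha2 : qc (V j).Q * a j = -((a j)ᵀ * qc (V j).Q) := by
        rw [eq_neg_iff_add_eq_zero, add_comm]
        exact ha'
      have hb2 : qc (V j).Q * b j = -((b j)ᵀ * qc (V j).Q) := by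
        rw [eq_neg_iff_add_eq_zero, add_comm]
        exact hb'
      have e1 : qc (V j).Q * (a j * b j) = (a j)ᵀ * (b j)ᵀ * qc (V j).Q := by
        rw [← mul_assoc, ha2, neg_mul, mul_assoc, hb2, mul_neg, neg_neg, mul_assoc]
      have e2 : qc (V j).Q * (b j * a j) = (b j)ᵀ * (a j)ᵀ * qc (V j).Q := by
        rw [← mul_assoc, hb2, neg_mul, mul_assoc, ha2, mul_neg, neg_neg, mul_assoc]
      rw [transpose_sub, transpose_mul, transpose_mul, mul_sub, e1, e2, sub_mul]
      abel
  exact h hx

variable [Fintype J] [DecidableEq J]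

theorem dag_mem {x : ∀ j, Matrix (B j) (B j) ℂ} (hx : x ∈ G (DD V)) :
    (fun j => (V j).dag (x j)) ∈ G (DD V) := by
  have h1 := T_memF V (U := G (DD V)) (fun y hy => brk_mem D_mem hy) (fun m => Complex.I ^ m) hx
  have h2 := gal_mem (starRingAut : ℂ ≃+* ℂ) h1
  have h3 : (fun j => (V j).dag (x j)) =
      -gal (starRingAut : ℂ ≃+* ℂ) fun j => (V j).T (fun m => Complex.I ^ m) (x j) := by
    funext j
    rw [Pi.neg_apply, gal_apply, (V j).T_weil]
    rfl
  rw [h3]
  exact Submodule.neg_mem _ h2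

/-- The trace form is nondegenerate on the Lie algebra of a finite family. -/
theorem nondeg {x : ∀ j, Matrix (B j) (B j) ℂ} (hx : x ∈ G (DD V))
    (h : ∀ y ∈ G (DD V), ∑ j, trace (x j * y j) = 0) : x = 0 := by
  have h1 := h _ (dag_mem V hx)
  choose r hr0 hr hr1 using fun j => (V j).trace_dag (spG V hx j)
  have h2 : ((∑ j, r j : ℝ) : ℂ) = 0 := by
    push_cast
    rw [← h1]
    exact Finset.sum_congr rfl fun j _ => (hr j).symm
  have h3 : ∑ j, r j = 0 := by exact_mod_cast h2
  funext j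
  exact hr1 j ((Finset.sum_eq_zero_iff_of_nonneg fun j _ => hr0 j).1 h3 j (Finset.mem_univ j))

end fam

end Pool.Agent.R919.FE
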