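import Mathlib
import Pool.Agent.R919.FE.Nd

/-!
# The Lie algebra of a Hodge structure without CM is perfect, pairwise independence
-/

set_option linter.unusedSectionVars false
set_option autoImplicit false

namespace Pool.Agent.R919.FE

open Matrix

section nd

variable {J : Type} {B : J → Type} [Fintype J] [DecidableEq J] [∀ j, Fintype (B j)]
  [∀ j, DecidableEq (B j)] (V : ∀ j, HodgeStructure (B j))

/-- The trace form. -/
noncomputable def tf (B : J → Type) [∀ j, Fintype (B j)] [∀ j, DecidableEq (B j)] :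
    (∀ j, Matrix (B j) (B j) ℂ) →ₗ[ℂ] (∀ j, Matrix (B j) (B j) ℂ) →ₗ[ℂ] ℂ :=
  LinearMap.mk₂ ℂ (fun x y => ∑ j, trace (x j * y j))
    (by
      intro x x' y
      rw [← Finset.sum_add_distrib]
      refine Finset.sum_congr rfl fun j _ => ?_
      rw [Pi.add_apply, add_mul, trace_add])
    (by
      intro c x y
      rw [Finset.smul_sum]
      refine Finset.sum_congr rfl fun j _ => ?_
      rw [Pi.smul_apply, smul_mul_assoc, trace_smul])
    (by
      intro x y y'
      rw [← Finset.sum_add_distrib]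
      refine Finset.sum_congr rfl fun j _ => ?_
      rw [Pi.add_apply, mul_add, trace_add])
    (by
      intro c x y
      rw [Finset.smul_sum]
      refine Finset.sum_congr rfl fun j _ => ?_
      rw [Pi.smul_apply, mul_smul_comm, trace_smul])

theorem tf_apply (x y : ∀ j, Matrix (B j) (B j) ℂ) : tf B x y = ∑ j, trace (x j * y j) := rfl

/-- The invariance of the trace form. -/
theorem tf_inv (x y z : ∀ j, Matrix (B j) (B j) ℂ) :
    tf B (x * y - y * x) z = tf B x (y * z - z * y) := by
  rw [tf_apply, tf_apply]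
  refine Finset.sum_congr rfl fun j _ => ?_
  change trace ((x j * y j - y j * x j) * z j) = trace (x j * (y j * z j - z j * y j))
  rw [sub_mul, mul_sub, trace_sub, trace_sub, mul_assoc, mul_assoc, ← mul_assoc (x j) (z j),
    trace_mul_comm (y j)]

theorem tf_bij : Function.Bijective ((tf B).domRestrict₁₂ (G (DD V)) (G (DD V))) := by
  have hinj : Function.Injective ((tf B).domRestrict₁₂ (G (DD V)) (G (DD V))) := by
    rw [injective_iff_map_eq_zero]
    rintro ⟨x, hx⟩ h
    apply Subtype.ext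
    refine nondeg V hx fun y hy => ?_
    have h1 := LinearMap.congr_fun h ⟨y, hy⟩
    exact h1
  refine ⟨hinj, ?_⟩
  refine (LinearMap.injective_iff_surjective_of_finrank_eq_finrank ?_).1 hinj
  exact (Subspace.dual_finrank_eq).symm

/-- The isomorphism with the dual given by the trace form. -/
noncomputable def be : (G (DD V)) ≃ₗ[ℂ] Module.Dual ℂ (G (DD V)) :=
  LinearEquiv.ofBijective _ (tf_bij V)

theorem be_symm (f : Module.Dual ℂ (G (DD V))) {y : ∀ j, Matrix (B j) (B j) ℂ}
    (hy : y ∈ G (DD V)) : tf B ((be V).symm f : ∀ j, Matrix (B j) (B j) ℂ) y = f ⟨y, hy⟩ := by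
  have h : be V ((be V).symm f) = f := (be V).apply_symm_apply f
  exact LinearMap.congr_fun h ⟨y, hy⟩

/-- If the centre is trivial then the Lie algebra is perfect. -/
theorem perfG (hc : ∀ z ∈ G (DD V), (∀ x ∈ G (DD V), z * x - x * z = 0) → z = 0) :
    G (DD V) ≤ Submodule.span ℂ {z | ∃ x ∈ G (DD V), ∃ y ∈ G (DD V), z = x * y - y * x} := by
  intro x hx
  by_contra hcon
  obtain ⟨f, hf, hf'⟩ := Submodule.exists_dual_map_eq_bot_of_notMem hcon inferInstance
  set z := (be V).symm (f.comp (G (DD V)).subtype) with hz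
  have hrep : ∀ y ∈ G (DD V), tf B (z : ∀ j, Matrix (B j) (B j) ℂ) y = f y := by
    intro y hy
    rw [hz, be_symm V _ hy]
    rfl
  have hz0 : (z : ∀ j, Matrix (B j) (B j) ℂ) = 0 := by
    refine hc _ z.2 fun a ha => ?_
    refine nondeg V (brk_mem z.2 ha) fun b hb => ?_
    have h1 := tf_inv (z : ∀ j, Matrix (B j) (B j) ℂ) a b
    rw [hrep _ (brk_mem ha hb)] at h1
    have h2 : f (a * b - b * a) ∈ Submodule.map f (Submodule.span ℂ
        {z | ∃ x ∈ G (DD V), ∃ y ∈ G (DD V), z = x * y - y * x}) :=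
      Submodule.mem_map_of_mem (Submodule.subset_span ⟨a, ha, b, hb, rfl⟩)
    rw [hf', Submodule.mem_bot] at h2
    rw [h2] at h1
    exact h1
  apply hf
  rw [← hrep x hx, hz0, map_zero, LinearMap.zero_apply]

end nd

section single

variable {J : Type} {B : J → Type} [∀ j, Fintype (B j)]
  [∀ j, DecidableEq (B j)] (V : ∀ j, HodgeStructure (B j))

theorem qc_mul {l m n : Type} [Fintype m] (M : Matrix l m ℚ) (N : Matrix m n ℚ) :
    qc (M * N) = qc M * qc N := Matrix.map_mul

theorem qc_add {m n : Type} (M N : Matrix m n ℚ) : qc (M + N) = qc M + qc N :=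
  Matrix.map_add _ (map_add _) M N

theorem qc_inj {m n : Type} {M N : Matrix m n ℚ} (h : qc M = qc N) : M = N := by
  ext i j
  have h1 := congrFun (congrFun h i) j
  simpa using h1

/-- The elements of the Lie algebra commute with the endomorphisms. -/
theorem comm_end {j : J} {Y : Matrix (B j) (B j) ℚ} (hY : (V j).IsEnd Y)
    {x : Matrix (B j) (B j) ℂ} (hx : x ∈ g (DD V) j) : x * qc Y = qc Y * x := by
  let U : Submodule ℂ (Matrix (B j) (B j) ℂ) :=
    { carrier := {x | x * qc Y = qc Y * x}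
      zero_mem' := by
        change 0 * qc Y = qc Y * 0
        rw [zero_mul, mul_zero]
      add_mem' := by
        intro a b ha hb
        change (a + b) * qc Y = qc Y * (a + b)
        rw [add_mul, mul_add, show a * qc Y = qc Y * a from ha, show b * qc Y = qc Y * b from hb]
      smul_mem' := by
        intro c a ha
        change (c • a) * qc Y = qc Y * (c • a)
        rw [smul_mul_assoc, mul_smul_comm, show a * qc Y = qc Y * a from ha] }
  have h : g (DD V) j ≤ U := by
    refine g_le (fun σ => ?_) (fun a ha b hb => ?_)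
    · change (V j).D.map σ * qc Y = qc Y * (V j).D.map σ
      have h1 : (qc Y * (V j).D).map σ = ((V j).D * qc Y).map σ := by rw [hY]
      rw [← RingEquiv.coe_toRingHom σ, Matrix.map_mul, Matrix.map_mul, RingEquiv.coe_toRingHom,
        map_qc] at h1
      exact h1.symm
    · have ha' : a * qc Y = qc Y * a := ha
      have hb' : b * qc Y = qc Y * b := hb
      change (a * b - b * a) * qc Y = qc Y * (a * b - b * a)
      have e1 : a * b * qc Y = qc Y * (a * b) := by rw [mul_assoc, hb', ← mul_assoc, ha', mul_assoc]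
      have e2 : b * a * qc Y = qc Y * (b * a) := by rw [mul_assoc, ha', ← mul_assoc, hb', mul_assoc]
      rw [sub_mul, mul_sub, e1, e2]
  exact h hx

theorem g_sp {j : J} {x : Matrix (B j) (B j) ℂ} (hx : x ∈ g (DD V) j) :
    xᵀ * qc (V j).Q + qc (V j).Q * x = 0 := by
  obtain ⟨a, ha, rfl⟩ := mem_g.1 hx
  exact spG V ha j

/-- The centre is trivial. -/
theorem centre {j : J} (hV : (V j).NoCM) {z : Matrix (B j) (B j) ℂ} (hz : z ∈ g (DD V) j)
    (hc : ∀ x ∈ g (DD V) j, z * x = x * z) : z = 0 := by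
  let Z : Submodule ℂ (Matrix (B j) (B j) ℂ) :=
    { carrier := {z | z ∈ g (DD V) j ∧ ∀ x ∈ g (DD V) j, z * x = x * z}
      zero_mem' := ⟨Submodule.zero_mem _, fun x _ => by rw [zero_mul, mul_zero]⟩
      add_mem' := by
        rintro a b ⟨ha1, ha2⟩ ⟨hb1, hb2⟩
        refine ⟨Submodule.add_mem _ ha1 hb1, fun x hx => ?_⟩
        rw [add_mul, mul_add, ha2 x hx, hb2 x hx]
      smul_mem' := by
        rintro c a ⟨ha1, ha2⟩
        refine ⟨Submodule.smul_mem _ _ ha1, fun x hx => ?_⟩
        rw [smul_mul_assoc, mul_smul_comm, ha2 x hx] }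
  have hσ : ∀ (σ : ℂ ≃+* ℂ), ∀ v ∈ Z, v.map σ ∈ Z := by
    rintro σ v ⟨hv1, hv2⟩
    refine ⟨g_gal σ hv1, fun x hx => ?_⟩
    have h1 := hv2 _ (g_gal σ.symm hx)
    have h2 := congrArg (fun M : Matrix (B j) (B j) ℂ => M.map σ) h1
    have h3 : (x.map σ.symm).map σ = x := by
      ext a b
      simp
    change (v * x.map σ.symm).map σ = (x.map σ.symm * v).map σ at h2
    rw [← RingEquiv.coe_toRingHom σ, Matrix.map_mul, Matrix.map_mul, RingEquiv.coe_toRingHom,
      h3] at h2
    exact h2
  have hZ := span_rat Z hσ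
  have hzZ : z ∈ Z := ⟨hz, hc⟩
  rw [hZ] at hzZ
  have h0 : Submodule.span ℂ {w | w ∈ Z ∧ ∃ u : Matrix (B j) (B j) ℚ,
      w = u.map (algebraMap ℚ ℂ)} ≤ ⊥ := by
    rw [Submodule.span_le]
    rintro w ⟨⟨hw1, hw2⟩, u, rfl⟩
    have hu : u = 0 := by
      refine hV u (hw2 _ g_D) (fun Y hY => ?_) ?_
      · have h1 := comm_end V hY hw1
        rw [← qc_mul, ← qc_mul] at h1
        exact qc_inj h1
      · have h1 := g_sp V hw1
        apply qc_inj
        have h2 : qc (uᵀ * (V j).Q + (V j).Q * u) = (qc u)ᵀ * qc (V j).Q + qc (V j).Q * qc u := by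
          rw [← qc_mul, show (qc u)ᵀ = qc uᵀ from rfl, ← qc_mul, qc_add]
        rw [h2, h1]
        ext a b
        simp
    rw [hu]
    change (0 : Matrix (B j) (B j) ℚ).map (algebraMap ℚ ℂ) = 0
    ext a b
    simp
  have := h0 hzZ
  simpa using this

/-- The Lie algebra of a Hodge structure without CM is perfect. -/
theorem perf {j : J} (hV : (V j).NoCM) :
    g (DD V) j ≤ Submodule.span ℂ
      {z | ∃ x ∈ g (DD V) j, ∃ y ∈ g (DD V) j, z = x * y - y * x} := by
  let φ : Unit → J := fun _ => j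
  have hmem : ∀ y : ∀ k : Unit, Matrix (B (φ k)) (B (φ k)) ℂ,
      y ∈ G (DD fun k => V (φ k)) ↔ y () ∈ g (DD V) j := by
    intro y
    rw [show (DD fun k => V (φ k)) = fun k => DD V (φ k) from rfl, mem_comp, mem_g]
    constructor
    · rintro ⟨x, hx, rfl⟩
      exact ⟨x, hx, rfl⟩
    · rintro ⟨x, hx, hxy⟩
      exact ⟨x, hx, funext fun _ => hxy⟩
  have h := perfG (fun k => V (φ k)) (by
    intro z hz hzc
    funext k
    refine centre V hV ((hmem z).1 hz) fun x hx => ?_
    have h1 := hzc (fun _ => x) ((hmem _).2 hx)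
    exact sub_eq_zero.1 (congrFun h1 ()))
  intro y hy
  have h1 : (fun _ : Unit => y) ∈ G (DD fun k => V (φ k)) := (hmem _).2 hy
  have h2 := h h1
  have h3 := Submodule.mem_map_of_mem
    (f := (LinearMap.proj () : (∀ k : Unit, Matrix (B (φ k)) (B (φ k)) ℂ) →ₗ[ℂ] _)) h2
  rw [Submodule.map_span] at h3
  refine Submodule.span_mono ?_ h3
  rintro _ ⟨w, ⟨a, ha, b, hb, rfl⟩, rfl⟩
  exact ⟨a (), (hmem a).1 ha, b (), (hmem b).1 hb, rfl⟩

end single

end Pool.Agent.R919.FE
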