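import Mathlib
import Pool.Agent.R919.FE.Perf

/-!
# Pairwise independence implies independence
-/

set_option linter.unusedSectionVars false
set_option autoImplicit false

namespace Pool.Agent.R919.FE

open Matrix

section linC

variable {B B' : Type} [Fintype B] [Fintype B'] [DecidableEq B] [DecidableEq B']

/-- The linear map with a given matrix of coefficients. -/
noncomputable def linC (M : Matrix (B' × B') (B × B) ℂ) :
    Matrix B B ℂ →ₗ[ℂ] Matrix B' B' ℂ where
  toFun := fun X a b => ∑ c, ∑ d, M (a, b) (c, d) * X c d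
  map_add' := by
    intro X Y
    ext a b
    simp only [Matrix.add_apply, mul_add, Finset.sum_add_distrib]
  map_smul' := by
    intro r X
    ext a b
    simp only [Matrix.smul_apply, smul_eq_mul, RingHom.id_apply, Finset.mul_sum]
    refine Finset.sum_congr rfl fun c _ => Finset.sum_congr rfl fun d _ => ?_
    ring

theorem linC_apply (M : Matrix (B' × B') (B × B) ℂ) (X : Matrix B B ℂ) (a b : B') :
    linC M X a b = ∑ c, ∑ d, M (a, b) (c, d) * X c d := rfl

theorem linC_add (M N : Matrix (B' × B') (B × B) ℂ) (X : Matrix B B ℂ) :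
    linC (M + N) X = linC M X + linC N X := by
  ext a b
  simp only [linC_apply, Matrix.add_apply, add_mul, Finset.sum_add_distrib]

theorem linC_smul (r : ℂ) (M : Matrix (B' × B') (B × B) ℂ) (X : Matrix B B ℂ) :
    linC (r • M) X = r • linC M X := by
  ext a b
  simp only [linC_apply, Matrix.smul_apply, smul_eq_mul, Finset.mul_sum]
  refine Finset.sum_congr rfl fun c _ => Finset.sum_congr rfl fun d _ => ?_
  ring

theorem linC_zero (X : Matrix B B ℂ) : linC (0 : Matrix (B' × B') (B × B) ℂ) X = 0 := by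
  ext a b
  simp [linC_apply]

theorem linC_map (σ : ℂ ≃+* ℂ) (M : Matrix (B' × B') (B × B) ℂ) (X : Matrix B B ℂ) :
    linC (M.map σ) (X.map σ) = (linC M X).map σ := by
  ext a b
  simp only [linC_apply, Matrix.map_apply, map_sum, map_mul]

/-- Every linear map has a matrix of coefficients. -/
theorem exists_linC (Φ : Matrix B B ℂ →ₗ[ℂ] Matrix B' B' ℂ) :
    ∃ M : Matrix (B' × B') (B × B) ℂ, ∀ X, linC M X = Φ X := by
  refine ⟨Matrix.of fun p q => Φ (Matrix.single q.1 q.2 1) p.1 p.2, fun X => ?_⟩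
  ext a b
  rw [linC_apply]
  conv_rhs => rw [matrix_eq_sum_single X, map_sum]
  rw [Matrix.sum_apply]
  refine Finset.sum_congr rfl fun c _ => ?_
  rw [map_sum, Matrix.sum_apply]
  refine Finset.sum_congr rfl fun d _ => ?_
  rw [of_apply]
  have h : Matrix.single c d (X c d) = X c d • Matrix.single c d (1 : ℂ) := by
    rw [smul_single, smul_eq_mul, mul_one]
  rw [h, map_smul, Matrix.smul_apply, smul_eq_mul, mul_comm]

theorem map_symm_map (σ : ℂ ≃+* ℂ) {m n : Type} (X : Matrix m n ℂ) :
    (X.map σ.symm).map σ = X := by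
  ext a b
  simp

theorem map_brk (σ : ℂ ≃+* ℂ) (X Y : Matrix B B ℂ) :
    (X * Y - Y * X).map σ = X.map σ * Y.map σ - Y.map σ * X.map σ := by
  rw [← RingEquiv.coe_toRingHom σ, Matrix.map_sub _ (map_sub _), Matrix.map_mul, Matrix.map_mul]

end linC

section fam

variable {J : Type} {B : J → Type} [∀ j, Fintype (B j)]
  [∀ j, DecidableEq (B j)] (V : ∀ j, HodgeStructure (B j))

/-- The equivariant maps. -/
def EqM (s t : J) : Submodule ℂ (Matrix (B t × B t) (B s × B s) ℂ) where
  carrier := {M | ∀ z ∈ G (DD V), ∀ X, linC M (z s * X - X * z s) =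
    z t * linC M X - linC M X * z t}
  zero_mem' := by
    intro z _ X
    rw [linC_zero, linC_zero, mul_zero, zero_mul, sub_zero]
  add_mem' := by
    intro M N hM hN z hz X
    rw [linC_add, linC_add, hM z hz X, hN z hz X]
    noncomm_ring
  smul_mem' := by
    intro r M hM z hz X
    rw [linC_smul, linC_smul, hM z hz X, mul_smul_comm, smul_mul_assoc, smul_sub]

theorem EqM_gal {s t : J} (σ : ℂ ≃+* ℂ) {M : Matrix (B t × B t) (B s × B s) ℂ}
    (hM : M ∈ EqM V s t) : M.map σ ∈ EqM V s t := by
  intro z hz X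
  have h1 := hM _ (gal_mem σ.symm hz) (X.map σ.symm)
  have h2 := congrArg (fun N : Matrix (B t) (B t) ℂ => N.map σ) h1
  rw [gal_apply, gal_apply, ← linC_map, map_brk, map_brk, ← linC_map] at h2
  rw [map_symm_map, map_symm_map, map_symm_map] at h2
  exact h2

variable {V}

/-- For independent Hodge structures the values of the equivariant maps are invariant. -/
theorem EqM_inv {s t : J} (hst : Independent (V s) (V t))
    {M : Matrix (B t × B t) (B s × B s) ℂ} (hM : M ∈ EqM V s t) {z : ∀ j, Matrix (B j) (B j) ℂ}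
    (hz : z ∈ G (DD V)) (X : Matrix (B s) (B s) ℂ) : z t * linC M X = linC M X * z t := by
  -- for the operator itself
  have hD : ∀ N ∈ EqM V s t, ∀ Y, (V t).D * linC N Y = linC N Y * (V t).D := by
    intro N hN
    have h1 := span_rat (EqM V s t) (fun σ v hv => EqM_gal V σ hv)
    rw [h1] at hN
    induction hN using Submodule.span_induction with
    | mem N h =>
      obtain ⟨hN, u, rfl⟩ := h
      intro Y
      have h2 := hst (fun a b c d => u (a, b) (c, d)) (fun X => hN _ D_mem X) Y
      exact h2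
    | zero =>
      intro Y
      rw [linC_zero, mul_zero, zero_mul]
    | add a b _ _ ha hb =>
      intro Y
      rw [linC_add, mul_add, add_mul, ha, hb]
    | smul r a _ ha =>
      intro Y
      rw [linC_smul, mul_smul_comm, smul_mul_assoc, ha]
  -- for the conjugates
  let U : Submodule ℂ (∀ j, Matrix (B j) (B j) ℂ) :=
    { carrier := {z | ∀ N ∈ EqM V s t, ∀ Y, z t * linC N Y = linC N Y * z t}
      zero_mem' := by
        intro N _ Y
        change 0 * _ = _ * 0
        rw [mul_zero, zero_mul]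
      add_mem' := by
        intro a b ha hb N hN Y
        change (a t + b t) * _ = _ * (a t + b t)
        rw [mul_add, add_mul, ha N hN Y, hb N hN Y]
      smul_mem' := by
        intro r a ha N hN Y
        change (r • a t) * _ = _ * (r • a t)
        rw [mul_smul_comm, smul_mul_assoc, ha N hN Y] }
  have hU : G (DD V) ≤ U := by
    refine G_le (fun σ => ?_) (fun a ha b hb => ?_)
    · intro N hN Y
      have h1 := hD _ (EqM_gal V σ.symm hN) (Y.map σ.symm)
      have h2 := congrArg (fun N : Matrix (B t) (B t) ℂ => N.map σ) h1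
      change ((V t).D * linC (N.map σ.symm) (Y.map σ.symm)).map σ =
        (linC (N.map σ.symm) (Y.map σ.symm) * (V t).D).map σ at h2
      rw [← RingEquiv.coe_toRingHom σ, Matrix.map_mul, Matrix.map_mul, RingEquiv.coe_toRingHom,
        ← linC_map, map_symm_map, map_symm_map] at h2
      exact h2
    · intro N hN Y
      have ha' := ha N hN Y
      have hb' := hb N hN Y
      change (a t * b t - b t * a t) * _ = _ * (a t * b t - b t * a t)
      have e1 : a t * b t * linC N Y = linC N Y * (a t * b t) := by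
        rw [mul_assoc, hb', ← mul_assoc, ha', mul_assoc]
      have e2 : b t * a t * linC N Y = linC N Y * (b t * a t) := by
        rw [mul_assoc, ha', ← mul_assoc, hb', mul_assoc]
      rw [sub_mul, mul_sub, e1, e2]
  exact hU hz M hM X

end fam

section split

variable {J : Type} {B : J → Type} [Fintype J] [DecidableEq J] [∀ j, Fintype (B j)]
  [∀ j, DecidableEq (B j)] (V : ∀ j, HodgeStructure (B j))

/-- The element of the Lie algebra which represents `w ↦ trace (X * w s)`. -/
noncomputable def rp (s : J) : Matrix (B s) (B s) ℂ →ₗ[ℂ] (∀ j, Matrix (B j) (B j) ℂ) where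
  toFun := fun X => ((be V).symm ((tf B (Pi.single s X)).domRestrict (G (DD V))) :
    ∀ j, Matrix (B j) (B j) ℂ)
  map_add' := by
    intro X Y
    have h : (tf B (Pi.single s (X + Y))).domRestrict (G (DD V)) =
        (tf B (Pi.single s X)).domRestrict (G (DD V)) +
          (tf B (Pi.single s Y)).domRestrict (G (DD V)) := by
      rw [Pi.single_add, map_add]
      rfl
    rw [h, map_add]
    rfl
  map_smul' := by
    intro r X
    have h : (tf B (Pi.single s (r • X))).domRestrict (G (DD V)) =
        r • (tf B (Pi.single s X)).domRestrict (G (DD V)) := by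
      rw [Pi.single_smul, map_smul]
      rfl
    rw [h, map_smul]
    rfl

theorem rp_mem (s : J) (X : Matrix (B s) (B s) ℂ) : rp V s X ∈ G (DD V) :=
  ((be V).symm _).2

theorem tf_single (s : J) (X : Matrix (B s) (B s) ℂ) (w : ∀ j, Matrix (B j) (B j) ℂ) :
    tf B (Pi.single s X) w = trace (X * w s) := by
  rw [tf_apply, Finset.sum_eq_single s]
  · rw [Pi.single_eq_same]
  · intro j _ hj
    rw [Pi.single_eq_of_ne hj, zero_mul, trace_zero]
  · intro h
    exact absurd (Finset.mem_univ s) h

theorem rp_spec (s : J) (X : Matrix (B s) (B s) ℂ) {w : ∀ j, Matrix (B j) (B j) ℂ}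
    (hw : w ∈ G (DD V)) : tf B (rp V s X) w = trace (X * w s) := by
  rw [← tf_single s X w]
  exact be_symm V _ hw

/-- Uniqueness. -/
theorem tf_ext {x y : ∀ j, Matrix (B j) (B j) ℂ} (hx : x ∈ G (DD V)) (hy : y ∈ G (DD V))
    (h : ∀ w ∈ G (DD V), tf B x w = tf B y w) : x = y := by
  have h1 : x - y = 0 := by
    refine nondeg V (Submodule.sub_mem _ hx hy) fun w hw => ?_
    have h2 : tf B (x - y) w = 0 := by
      rw [map_sub, LinearMap.sub_apply, h w hw, sub_self]
    exact h2
  exact sub_eq_zero.1 h1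

theorem rp_equiv (s : J) (X : Matrix (B s) (B s) ℂ) {z : ∀ j, Matrix (B j) (B j) ℂ}
    (hz : z ∈ G (DD V)) : rp V s (z s * X - X * z s) = z * rp V s X - rp V s X * z := by
  refine tf_ext V (rp_mem V s _) (brk_mem hz (rp_mem V s X)) fun w hw => ?_
  rw [rp_spec V s _ hw]
  have h1 : z * rp V s X - rp V s X * z = -(rp V s X * z - z * rp V s X) := by
    rw [neg_sub]
  rw [h1, map_neg, LinearMap.neg_apply, tf_inv, rp_spec V s X (brk_mem hz hw)]
  change _ = -trace (X * (z s * w s - w s * z s))
  rw [sub_mul, mul_sub, trace_sub, trace_sub, mul_assoc, mul_assoc, trace_mul_comm (z s),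
    mul_assoc, neg_sub]

/-- The representing element vanishes at the other factors. -/
theorem rp_zero {s t : J} (hs : (V s).NoCM) (hst : Independent (V s) (V t))
    {u : Matrix (B s) (B s) ℂ} (hu : u ∈ g (DD V) s) : rp V s u t = 0 := by
  obtain ⟨M, hM⟩ := exists_linC ((LinearMap.proj t : (∀ j, Matrix (B j) (B j) ℂ) →ₗ[ℂ] _) ∘ₗ
    rp V s)
  have hM' : ∀ X, linC M X = rp V s X t := hM
  have hE : M ∈ EqM V s t := by
    intro z hz X
    rw [hM', hM', rp_equiv V s X hz]
    rfl
  have h1 := perf V hs hu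
  have h2 : Submodule.span ℂ {z | ∃ x ∈ g (DD V) s, ∃ y ∈ g (DD V) s, z = x * y - y * x} ≤
      LinearMap.ker ((LinearMap.proj t : (∀ j, Matrix (B j) (B j) ℂ) →ₗ[ℂ] _) ∘ₗ rp V s) := by
    rw [Submodule.span_le]
    rintro _ ⟨x, hx, y, hy, rfl⟩
    obtain ⟨z, hz, rfl⟩ := mem_g.1 hx
    change rp V s (z s * y - y * z s) t = 0
    rw [← hM', hE z hz y, EqM_inv hst hE hz y, sub_self]
  exact h2 h1

/-- The Lie algebra is the direct sum of the Lie algebras of the factors. -/
theorem split (h1 : ∀ j, (V j).NoCM) (h2 : ∀ s t, s ≠ t → Independent (V s) (V t))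
    {x : ∀ j, Matrix (B j) (B j) ℂ} (hx : x ∈ G (DD V)) (s : J) :
    ∃ y ∈ G (DD V), y s = x s ∧ ∀ t, t ≠ s → y t = 0 := by
  have hg : ∀ s, x s ∈ g (DD V) s := fun s => mem_g.2 ⟨x, hx, rfl⟩
  have hsum : x = ∑ s, rp V s (x s) := by
    refine tf_ext V hx (Submodule.sum_mem _ fun s _ => rp_mem V s _) fun w hw => ?_
    rw [map_sum, LinearMap.sum_apply, tf_apply]
    exact Finset.sum_congr rfl fun s _ => (rp_spec V s _ hw).symm
  refine ⟨rp V s (x s), rp_mem V s _, ?_, fun t ht => rp_zero V (h1 s) (h2 s t ht.symm) (hg s)⟩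
  have h3 := congrFun hsum s
  rw [Finset.sum_apply, Finset.sum_eq_single s] at h3
  · exact h3.symm
  · intro t _ hts
    exact rp_zero V (h1 t) (h2 t s hts) (hg t)
  · intro h
    exact absurd (Finset.mem_univ s) h

end split

section split2

variable {J : Type} {B : J → Type} [DecidableEq J] [∀ j, Fintype (B j)]
  [∀ j, DecidableEq (B j)] (V : ∀ j, HodgeStructure (B j))

/-- The same for a finite part of a family. -/
theorem split_fin (T : Finset J) (h1 : ∀ j ∈ T, (V j).NoCM)
    (h2 : ∀ s ∈ T, ∀ t ∈ T, s ≠ t → Independent (V s) (V t))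
    {x : ∀ j, Matrix (B j) (B j) ℂ} (hx : x ∈ G (DD V)) {s : J} (hs : s ∈ T) :
    ∃ y ∈ G (DD V), y s = x s ∧ ∀ t ∈ T, t ≠ s → y t = 0 := by
  let φ : T → J := Subtype.val
  have h3 : (fun k : T => x (φ k)) ∈ G (DD fun k => V (φ k)) :=
    (mem_comp (D := DD V) φ).2 ⟨x, hx, rfl⟩
  obtain ⟨y, hy, hys, hyt⟩ := split (fun k => V (φ k)) (fun k => h1 _ k.2)
    (fun s t hst => h2 _ s.2 _ t.2 fun h => hst (Subtype.ext h)) h3 ⟨s, hs⟩
  obtain ⟨z, hz, hzy⟩ := (mem_comp (D := DD V) φ).1 hy
  refine ⟨z, hz, ?_, fun t ht hts => ?_⟩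
  · have h4 := congrFun hzy ⟨s, hs⟩
    exact h4.trans hys
  · have h4 := congrFun hzy ⟨t, ht⟩
    exact h4.trans (hyt ⟨t, ht⟩ fun h => hts (congrArg Subtype.val h))

end split2

end Pool.Agent.R919.FE
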