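import Mathlib
import Pool.Agent.R919.FE.Pair

/-!
# The number of the exceptional members of a family
-/

set_option linter.unusedSectionVars false
set_option autoImplicit false

namespace Pool.Agent.R919.FE

open Matrix Polynomial

section eig

variable {B : Type} [Fintype B] [DecidableEq B]

/-- The commutator with `A` as an endomorphism. -/
noncomputable def ad (A : Matrix B B ℂ) : Module.End ℂ (Matrix B B ℂ) :=
  LinearMap.mulLeft ℂ A - LinearMap.mulRight ℂ A

theorem ad_apply (A X : Matrix B B ℂ) : ad A X = A * X - X * A := rfl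

theorem aeval_shift (A u : Matrix B B ℂ) (l : ℂ) (h : A * u = u * (A + algebraMap ℂ _ l))
    (p : ℂ[X]) : aeval A p * u = u * aeval A (p.comp (X + C l)) := by
  induction p using Polynomial.induction_on with
  | C a =>
    rw [aeval_C, C_comp, aeval_C]
    exact Algebra.commutes a u
  | add p q hp hq => rw [map_add, add_mul, hp, hq, add_comp, map_add, mul_add]
  | monomial n a hn =>
    have h1 : (C a * X ^ (n + 1) : ℂ[X]) = (C a * X ^ n) * X := by ring
    have h2 : ((C a * X ^ n : ℂ[X]) * X).comp (X + C l) =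
        (C a * X ^ n : ℂ[X]).comp (X + C l) * (X + C l) := by
      rw [mul_comp _ X, X_comp]
    rw [h1, h2, map_mul (aeval A) (C a * X ^ n) X, aeval_X, mul_assoc, h, ← mul_assoc, hn,
      map_mul (aeval A) ((C a * X ^ n : ℂ[X]).comp (X + C l)), map_add (aeval A) X, aeval_X,
      aeval_C, mul_assoc]

/-- If a commutator has an eigenvalue then it is a difference of eigenvalues. -/
theorem eig_diff (A u : Matrix B B ℂ) (l : ℂ) (hu : u ≠ 0) (h : A * u - u * A = l • u) :
    ∃ a ∈ A.charpoly.roots, ∃ b ∈ A.charpoly.roots, a - b = l := by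
  by_contra hcon
  push Not at hcon
  have hB : Nonempty B := by
    by_contra hne
    rw [not_nonempty_iff] at hne
    exact hu (Subsingleton.elim _ _)
  apply hu
  have h1 : A * u = u * (A + algebraMap ℂ _ l) := by
    rw [mul_add, ← Algebra.commutes l u, ← Algebra.smul_def, ← h]
    abel
  have h2 := aeval_shift A u l h1 A.charpoly
  rw [Matrix.aeval_self_charpoly, zero_mul] at h2
  have h3 : IsUnit (aeval A (A.charpoly.comp (X + C l))) := by
    by_contra hnu
    have h4 : (0 : ℂ) ∈ spectrum ℂ (aeval A (A.charpoly.comp (X + C l))) := by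
      rw [spectrum.zero_mem_iff]
      exact hnu
    rw [spectrum.map_polynomial_aeval_of_nonempty A _
      (spectrum.nonempty_of_isAlgClosed_of_finiteDimensional ℂ A)] at h4
    obtain ⟨b, hb, hb'⟩ := h4
    have hb2 : b ∈ A.charpoly.roots := by
      rw [mem_roots (Matrix.charpoly_monic A).ne_zero]
      exact Matrix.mem_spectrum_iff_isRoot_charpoly.1 hb
    have ha2 : b + l ∈ A.charpoly.roots := by
      rw [mem_roots (Matrix.charpoly_monic A).ne_zero, IsRoot.def]
      simpa using hb'
    exact hcon _ ha2 _ hb2 (by ring)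
  obtain ⟨v, hv⟩ := h3
  rw [← hv] at h2
  have h5 := congrArg (fun M => M * ((v⁻¹ : (Matrix B B ℂ)ˣ) : Matrix B B ℂ)) h2
  simp only [zero_mul, mul_assoc, Units.mul_inv, mul_one] at h5
  exact h5.symm

open scoped ComplexOrder in
theorem HodgeStructure.isUnit_Q (V : HodgeStructure B) : IsUnit (qc V.Q) := by
  have h1 : IsUnit ((qc V.Q)ᵀ * V.C) := V.posDef.isUnit
  rw [Matrix.isUnit_iff_isUnit_det] at h1 ⊢
  rw [det_mul, det_transpose] at h1
  exact isUnit_of_mul_isUnit_left h1

theorem roots_neg (V : HodgeStructure B) {A : Matrix B B ℂ} (hA : Aᵀ * qc V.Q + qc V.Q * A = 0)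
    {a : ℂ} (ha : a ∈ A.charpoly.roots) : -a ∈ A.charpoly.roots := by
  rw [mem_roots (Matrix.charpoly_monic A).ne_zero] at ha ⊢
  rw [← Matrix.mem_spectrum_iff_isRoot_charpoly, spectrum.mem_iff] at ha ⊢
  intro hu
  apply ha
  have h1 : qc V.Q * (algebraMap ℂ _ (-a) - A) = -((algebraMap ℂ _ a - A)ᵀ * qc V.Q) := by
    have h2 : qc V.Q * A = -(Aᵀ * qc V.Q) := by
      rw [eq_neg_iff_add_eq_zero, add_comm]
      exact hA
    rw [mul_sub, h2, transpose_sub, sub_mul, map_neg]
    have h3 : (algebraMap ℂ (Matrix B B ℂ) a)ᵀ = algebraMap ℂ _ a := by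
      rw [Matrix.algebraMap_eq_diagonal, diagonal_transpose]
    rw [h3, mul_neg, ← Algebra.commutes a (qc V.Q)]
    abel
  have h2 : IsUnit (qc V.Q * (algebraMap ℂ _ (-a) - A)) := V.isUnit_Q.mul hu
  rw [h1, IsUnit.neg_iff, Matrix.isUnit_iff_isUnit_det, det_mul, det_transpose] at h2
  rw [Matrix.isUnit_iff_isUnit_det]
  exact isUnit_of_mul_isUnit_left h2

end eig

/-- The rank of a set of complex numbers stable under negation. -/
theorem rank_half (E : Finset ℂ) (hE : ∀ a ∈ E, -a ∈ E) :
    2 * Module.finrank ℚ (Submodule.span ℚ (E : Set ℂ)) ≤ E.card := by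
  classical
  obtain ⟨b, hb1, hb2, hb3⟩ := exists_linearIndependent ℚ (E : Set ℂ)
  have hbf : b.Finite := E.finite_toSet.subset hb1
  obtain ⟨b', rfl⟩ : ∃ b' : Finset ℂ, (b' : Set ℂ) = b := ⟨hbf.toFinset, hbf.coe_toFinset⟩
  have h1 : Module.finrank ℚ (Submodule.span ℚ (E : Set ℂ)) = b'.card := by
    rw [← hb2]
    exact finrank_span_finset_eq_card hb3
  rw [h1]
  have hne : ∀ x ∈ b', x ≠ 0 := fun x hx => hb3.ne_zero (⟨x, hx⟩ : (b' : Set ℂ))
  have hdis : Disjoint b' (b'.image fun x => -x) := by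
    rw [Finset.disjoint_left]
    intro x hx hx'
    obtain ⟨y, hy, hyx⟩ := Finset.mem_image.1 hx'
    by_cases hxy : x = y
    · subst hxy
      exact hne x hx (self_eq_neg.1 hyx.symm)
    · have h2 := linearIndependent_iff'.1 hb3 {(⟨x, hx⟩ : (b' : Set ℂ)), ⟨y, hy⟩} (fun _ => 1)
        (by
          rw [Finset.sum_pair (fun h => hxy (congrArg Subtype.val h)), one_smul, one_smul]
          change x + y = 0
          rw [← hyx]
          exact neg_add_cancel y) ⟨x, hx⟩ (by simp)
      exact one_ne_zero h2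
  have hsub : b' ∪ (b'.image fun x => -x) ⊆ E := by
    apply Finset.union_subset
    · exact hb1
    · intro x hx
      obtain ⟨y, hy, rfl⟩ := Finset.mem_image.1 hx
      exact hE y (hb1 hy)
  have hcard := Finset.card_le_card hsub
  rw [Finset.card_union_of_disjoint hdis, Finset.card_image_of_injective _ neg_injective] at hcard
  omega

/-- There are as many rationally independent complex numbers as one wants. -/
theorem exists_indep (n : ℕ) : ∃ μ : Fin n → ℂ, LinearIndependent ℚ μ := by
  have h1 : (n : Cardinal) ≤ Module.rank ℚ ℂ := by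
    rw [Complex.rank_rat_complex]
    exact (Cardinal.natCast_lt_aleph0.trans Cardinal.aleph0_lt_continuum).le
  rw [le_rank_iff_exists_linearIndependent_finset] at h1
  obtain ⟨s, hs, hs2⟩ := h1
  exact ⟨fun i => ((s.equivFinOfCardEq hs).symm i : ℂ), hs2.comp _ (Equiv.injective _)⟩

theorem card_le_of_mem {ι : Type} (S : Finset ι) (μ : S → ℂ) (hμ : LinearIndependent ℚ μ)
    (E : Finset ℂ) (h : ∀ i, μ i ∈ Submodule.span ℚ (E : Set ℂ)) :
    S.card ≤ Module.finrank ℚ (Submodule.span ℚ (E : Set ℂ)) := by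
  have h1 : LinearIndependent ℚ (fun i => (⟨μ i, h i⟩ : Submodule.span ℚ (E : Set ℂ))) := by
    refine LinearIndependent.of_comp (Submodule.span ℚ (E : Set ℂ)).subtype ?_
    exact hμ
  have : FiniteDimensional ℚ (Submodule.span ℚ (E : Set ℂ)) :=
    FiniteDimensional.span_finset ℚ E
  have h2 := h1.fintype_card_le_finrank
  rwa [Fintype.card_coe] at h2

end Pool.Agent.R919.FE
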