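import Mathlib
import Pool.Agent.R919.FE.Exc

/-!
# The number of the exceptional members of a family
-/

set_option linter.unusedSectionVars false
set_option autoImplicit false

namespace Pool.Agent.R919.FE

open Matrix Polynomial

section single

variable {B : Type} [Fintype B] [DecidableEq B] (V : HodgeStructure B)

theorem HodgeStructure.T_sum (S : Finset ℤ) (ψ : ℤ → ℤ → ℂ) (x : Matrix B B ℂ) :
    V.T (fun m => ∑ k ∈ S, ψ k m) x = ∑ k ∈ S, V.T (ψ k) x := by
  induction S using Finset.induction_on with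
  | empty =>
    simp only [Finset.sum_empty]
    rw [V.T_const, zero_smul]
  | insert k S hk ih =>
    simp only [Finset.sum_insert hk]
    rw [V.T_add (ψ k) (fun m => ∑ k ∈ S, ψ k m), ih]

theorem HodgeStructure.T_one (x : Matrix B B ℂ) : V.T (fun _ => 1) x = x := by
  rw [V.T_const, one_smul]

theorem HodgeStructure.T_smul (c : ℂ) (φ : ℤ → ℂ) (x : Matrix B B ℂ) :
    V.T (fun m => c * φ m) x = c • V.T φ x := by
  rw [HodgeStructure.T, HodgeStructure.T, Finset.smul_sum]
  refine Finset.sum_congr rfl fun a _ => ?_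
  rw [Finset.smul_sum]
  exact Finset.sum_congr rfl fun b _ => mul_smul _ _ _

/-- The component of weight `m` for the commutator with `D`. -/
theorem HodgeStructure.T_delta (m : ℤ) (x : Matrix B B ℂ) :
    V.D * V.T (fun k => if k = m then 1 else 0) x - V.T (fun k => if k = m then 1 else 0) x * V.D =
      (m : ℂ) • V.T (fun k => if k = m then 1 else 0) x := by
  rw [V.T_ad, ← V.T_smul]
  refine V.T_congr (fun a _ b _ => ?_) x
  by_cases h : dl a - dl b = m
  · rw [h]
  · rw [if_neg h, mul_zero, mul_zero]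

/-- The commutator with `D` is the sum of its components. -/
theorem HodgeStructure.ad_sum (x : Matrix B B ℂ) : ∃ S : Finset ℤ,
    V.D * x - x * V.D = ∑ m ∈ S, (m : ℂ) • V.T (fun k => if k = m then 1 else 0) x := by
  classical
  refine ⟨(V.types ×ˢ V.types).image fun p => dl p.1 - dl p.2, ?_⟩
  have h1 : V.D * x - x * V.D = V.T (fun m => (m : ℂ) * 1) x := by
    rw [← V.T_ad, V.T_one]
  rw [h1]
  have h2 : ∀ m : ℤ, (m : ℂ) • V.T (fun k => if k = m then 1 else 0) x =
      V.T (fun k => (m : ℂ) * if k = m then 1 else 0) x := fun m => (V.T_smul _ _ _).symm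
  simp only [h2]
  rw [← V.T_sum]
  refine V.T_congr (fun a ha b hb => ?_) x
  rw [Finset.sum_eq_single (dl a - dl b)]
  · rw [if_pos rfl]
  · intro m _ hm
    rw [if_neg (Ne.symm hm), mul_zero]
  · intro h
    exact absurd (Finset.mem_image.2 ⟨(a, b), Finset.mem_product.2 ⟨ha, hb⟩, rfl⟩) h

end single

section fam

variable {J : Type} {B : J → Type} [∀ j, Fintype (B j)]
  [∀ j, DecidableEq (B j)] (V : ∀ j, HodgeStructure (B j))

/-- The index `i` is exceptional for `o`. -/
def Exceptional (o i : J) : Prop := ¬ ∀ y ∈ g (DD V) i, ∃ z ∈ G (DD V), z i = y ∧ z o = 0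

/-- The elements of the Lie algebra of the factor `i` which lift to an element which is zero at
`o`. -/
def K (o i : J) : Submodule ℂ (Matrix (B i) (B i) ℂ) where
  carrier := {y | ∃ z ∈ G (DD V), z i = y ∧ z o = 0}
  zero_mem' := ⟨0, Submodule.zero_mem _, rfl, rfl⟩
  add_mem' := by
    rintro _ _ ⟨a, ha, rfl, ha'⟩ ⟨b, hb, rfl, hb'⟩
    exact ⟨a + b, Submodule.add_mem _ ha hb, rfl, by rw [Pi.add_apply, ha', hb', add_zero]⟩
  smul_mem' := by
    rintro r _ ⟨a, ha, rfl, ha'⟩
    exact ⟨r • a, Submodule.smul_mem _ _ ha, rfl, by rw [Pi.smul_apply, ha', smul_zero]⟩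

theorem mem_K {o i : J} {y : Matrix (B i) (B i) ℂ} :
    y ∈ K V o i ↔ ∃ z ∈ G (DD V), z i = y ∧ z o = 0 := Iff.rfl

theorem K_le {o i : J} {y : Matrix (B i) (B i) ℂ} (hy : y ∈ K V o i) : y ∈ g (DD V) i := by
  obtain ⟨z, hz, hzi, _⟩ := hy
  exact mem_g.2 ⟨z, hz, hzi⟩

theorem K_brk {o i : J} {x y : Matrix (B i) (B i) ℂ} (hx : x ∈ g (DD V) i) (hy : y ∈ K V o i) :
    x * y - y * x ∈ K V o i := by
  obtain ⟨z, hz, rfl, hz'⟩ := hy
  obtain ⟨w, hw, rfl⟩ := mem_g.1 hx
  refine ⟨w * z - z * w, brk_mem hw hz, rfl, ?_⟩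
  change w o * z o - z o * w o = 0
  rw [hz', mul_zero, zero_mul, sub_zero]

theorem K_gal {o i : J} (σ : ℂ ≃+* ℂ) {y : Matrix (B i) (B i) ℂ} (hy : y ∈ K V o i) :
    y.map σ ∈ K V o i := by
  obtain ⟨z, hz, rfl, hz'⟩ := hy
  refine ⟨gal σ z, gal_mem σ hz, rfl, ?_⟩
  rw [gal_apply, hz']
  ext a b
  simp

variable {V}

/-- An exceptional factor gives an eigenvector of the operator outside the ideal. -/
theorem exists_eig {o i : J} (hV : (V i).NoCM) (hi : Exceptional V o i) :
    ∃ m : ℤ, m ≠ 0 ∧ ∃ e ∈ g (DD V) i, e ∉ K V o i ∧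
      (V i).D * e - e * (V i).D = (m : ℂ) • e := by
  by_contra hcon
  push Not at hcon
  apply hi
  -- commutators with the operator are in the ideal
  have h1 : ∀ y ∈ g (DD V) i, (V i).D * y - y * (V i).D ∈ K V o i := by
    intro y hy
    obtain ⟨S, hS⟩ := (V i).ad_sum y
    rw [hS]
    refine Submodule.sum_mem _ fun m _ => ?_
    by_cases hm : m = 0
    · rw [hm, Int.cast_zero, zero_smul]
      exact Submodule.zero_mem _
    · refine Submodule.smul_mem _ _ ?_
      by_contra hK
      refine hcon m hm _ ?_ hK ((V i).T_delta m y)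
      exact (V i).T_mem (U := g (DD V) i) (fun x hx => g_brk g_D hx) _ hy
  -- so all commutators
  let U : Submodule ℂ (Matrix (B i) (B i) ℂ) :=
    { carrier := {x | ∀ y ∈ g (DD V) i, x * y - y * x ∈ K V o i}
      zero_mem' := by
        intro y _
        rw [zero_mul, mul_zero, sub_zero]
        exact Submodule.zero_mem _
      add_mem' := by
        intro a b ha hb y hy
        have h : (a + b) * y - y * (a + b) = (a * y - y * a) + (b * y - y * b) := by
          noncomm_ring
        rw [h]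
        exact Submodule.add_mem _ (ha y hy) (hb y hy)
      smul_mem' := by
        intro r a ha y hy
        have h : (r • a) * y - y * (r • a) = r • (a * y - y * a) := by
          rw [smul_mul_assoc, mul_smul_comm, smul_sub]
        rw [h]
        exact Submodule.smul_mem _ _ (ha y hy) }
  have hU : g (DD V) i ≤ U := by
    refine g_le (fun σ => ?_) (fun a ha b hb => ?_)
    · intro y hy
      have h2 := K_gal V σ (h1 _ (g_gal σ.symm hy))
      rw [map_brk, map_symm_map] at h2
      exact h2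
    · intro y hy
      have h2 : (a * b - b * a) * y - y * (a * b - b * a) =
          (a * (b * y - y * b) - (b * y - y * b) * a) -
            (b * (a * y - y * a) - (a * y - y * a) * b) := by
        noncomm_ring
      rw [h2]
      exact Submodule.sub_mem _ (ha _ (K_le V (hb y hy))) (hb _ (K_le V (ha y hy)))
  intro y hy
  have h3 := perf V hV hy
  have h4 : Submodule.span ℂ {z | ∃ x ∈ g (DD V) i, ∃ y ∈ g (DD V) i, z = x * y - y * x} ≤
      K V o i := by
    rw [Submodule.span_le]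
    rintro _ ⟨a, ha, b, hb, rfl⟩
    exact hU ha b hb
  exact h4 h3

end fam

section pol

variable {J : Type} {B : J → Type} [∀ j, Fintype (B j)]
  [∀ j, DecidableEq (B j)] (V : ∀ j, HodgeStructure (B j))

/-- Polynomials in the commutator. -/
theorem exists_pol {x z : ∀ j, Matrix (B j) (B j) ℂ} (hx : x ∈ G (DD V)) (hz : z ∈ G (DD V))
    (p : ℂ[X]) : ∃ w ∈ G (DD V), ∀ j, w j = aeval (ad (x j)) p (z j) := by
  induction p using Polynomial.induction_on with
  | C a =>
    refine ⟨a • z, Submodule.smul_mem _ _ hz, fun j => ?_⟩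
    rw [aeval_C]
    rfl
  | add p q hp hq =>
    obtain ⟨w, hw, hw'⟩ := hp
    obtain ⟨v, hv, hv'⟩ := hq
    refine ⟨w + v, Submodule.add_mem _ hw hv, fun j => ?_⟩
    rw [map_add, LinearMap.add_apply, Pi.add_apply, hw', hv']
  | monomial n a hn =>
    obtain ⟨w, hw, hw'⟩ := hn
    refine ⟨x * w - w * x, brk_mem hx hw, fun j => ?_⟩
    have h1 : (C a * X ^ (n + 1) : ℂ[X]) = X * (C a * X ^ n) := by ring
    rw [h1, map_mul, aeval_X, Module.End.mul_apply, ← hw', ad_apply]
    rfl

theorem aeval_eig {B : Type} [Fintype B] [DecidableEq B] (A e : Matrix B B ℂ) (l : ℂ)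
    (h : A * e - e * A = l • e) (p : ℂ[X]) : aeval (ad A) p e = p.eval l • e := by
  induction p using Polynomial.induction_on with
  | C a =>
    rw [aeval_C, eval_C]
    rfl
  | add p q hp hq => rw [map_add, LinearMap.add_apply, hp, hq, eval_add, add_smul]
  | monomial n a hn =>
    have h1 : (C a * X ^ (n + 1) : ℂ[X]) = X * (C a * X ^ n) := by ring
    rw [h1, map_mul, aeval_X, Module.End.mul_apply, hn, map_smul, ad_apply, h, smul_smul]
    congr 1
    simp only [eval_mul, eval_X, eval_C, eval_pow]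
    ring

end pol

section bound

variable {J : Type} {B : J → Type} [DecidableEq J] [∀ j, Fintype (B j)]
  [∀ j, DecidableEq (B j)] (V : ∀ j, HodgeStructure (B j))

/-- The bound for the number of the exceptional members of the family. -/
theorem bound (o : J) (S : Finset J) (h1 : ∀ j ∈ S, (V j).NoCM)
    (h2 : ∀ s ∈ S, ∀ t ∈ S, s ≠ t → Independent (V s) (V t)) (h3 : ∀ j ∈ S, Exceptional V o j) :
    2 * S.card ≤ Fintype.card (B o) := by
  classical
  choose! m hm e heg heK hme using fun i (hi : i ∈ S) => exists_eig (h1 i hi) (h3 i hi)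
  choose! Y hY hYi hYt using fun i (hi : i ∈ S) => split_fin V S h1 h2 D_mem hi
  obtain ⟨μ', hμ'⟩ := exists_indep S.card
  obtain ⟨μ, hμ⟩ : ∃ μ : J → ℂ, LinearIndependent ℚ (fun i : S => μ i) := by
    refine ⟨fun j => if h : j ∈ S then μ' (S.equivFin ⟨j, h⟩) else 0, ?_⟩
    convert hμ'.comp _ S.equivFin.injective using 1
    funext i
    simp
  -- the element of the Lie algebra
  set x : ∀ j, Matrix (B j) (B j) ℂ := ∑ i ∈ S, μ i • Y i with hxdef
  have hx : x ∈ G (DD V) := Submodule.sum_mem _ fun i hi => Submodule.smul_mem _ _ (hY i hi)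
  have hxi : ∀ i ∈ S, x i = μ i • (V i).D := by
    intro i hi
    rw [hxdef, Finset.sum_apply, Finset.sum_eq_single i]
    · rw [Pi.smul_apply, hYi i hi]
      rfl
    · intro t ht hti
      rw [Pi.smul_apply, hYt t ht i hi (Ne.symm hti), smul_zero]
    · intro h
      exact absurd hi h
  -- the eigenvalues
  have hev : ∀ i ∈ S, ∃ u : Matrix (B o) (B o) ℂ, u ≠ 0 ∧
      x o * u - u * x o = (μ i * (m i : ℂ)) • u := by
    intro i hi
    obtain ⟨z, hz, hzi⟩ := mem_g.1 (heg i hi)
    set p := minpoly ℂ (ad (x o)) with hp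
    obtain ⟨w, hw, hw'⟩ := exists_pol V hx hz p
    have hwo : w o = 0 := by
      rw [hw', hp, minpoly.aeval, LinearMap.zero_apply]
    have hei : x i * e i - e i * x i = (μ i * (m i : ℂ)) • e i := by
      rw [hxi i hi, smul_mul_assoc, mul_smul_comm, ← smul_sub, hme i hi, smul_smul]
    have hwi : w i = p.eval (μ i * (m i : ℂ)) • e i := by
      rw [hw', hzi, aeval_eig _ _ _ hei]
    have hp0 : p.eval (μ i * (m i : ℂ)) = 0 := by
      by_contra hne
      apply heK i hi
      have h4 : w i ∈ K V o i := ⟨w, hw, rfl, hwo⟩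
      rw [hwi] at h4
      exact (Submodule.smul_mem_iff _ hne).1 h4
    have hroot : (ad (x o)).HasEigenvalue (μ i * (m i : ℂ)) :=
      Module.End.hasEigenvalue_of_isRoot hp0
    obtain ⟨u, hu⟩ := hroot.exists_hasEigenvector
    exact ⟨u, hu.2, hu.apply_eq_smul⟩
  -- the count
  set E : Finset ℂ := (x o).charpoly.roots.toFinset with hE
  have hneg : ∀ a ∈ E, -a ∈ E := by
    intro a ha
    rw [hE, Multiset.mem_toFinset] at ha ⊢
    exact roots_neg (V o) (spG V hx o) ha
  have hcard : E.card ≤ Fintype.card (B o) := by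
    calc E.card ≤ Multiset.card (x o).charpoly.roots := Multiset.toFinset_card_le _
      _ ≤ (x o).charpoly.natDegree := Polynomial.card_roots' _
      _ = Fintype.card (B o) := Matrix.charpoly_natDegree_eq_dim _
  have hmem : ∀ i : S, μ i ∈ Submodule.span ℚ (E : Set ℂ) := by
    rintro ⟨i, hi⟩
    obtain ⟨u, hu, hu'⟩ := hev i hi
    obtain ⟨a, ha, b, hb, hab⟩ := eig_diff _ _ _ hu hu'
    have ha' : a ∈ Submodule.span ℚ (E : Set ℂ) :=
      Submodule.subset_span (by rw [hE]; exact_mod_cast Multiset.mem_toFinset.2 ha)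
    have hb' : b ∈ Submodule.span ℚ (E : Set ℂ) :=
      Submodule.subset_span (by rw [hE]; exact_mod_cast Multiset.mem_toFinset.2 hb)
    have h4 : μ i * (m i : ℂ) ∈ Submodule.span ℚ (E : Set ℂ) := by
      rw [← hab]
      exact Submodule.sub_mem _ ha' hb'
    have h5 : μ i = ((m i : ℚ)⁻¹) • (μ i * (m i : ℂ)) := by
      have h6 : ((m i : ℤ) : ℂ) ≠ 0 := by exact_mod_cast hm i hi
      rw [Rat.smul_def]
      push_cast
      field_simp
    change μ i ∈ _
    rw [h5]
    exact Submodule.smul_mem _ _ h4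
  have h6 := card_le_of_mem S (fun i => μ i) hμ E hmem
  have h7 := rank_half E hneg
  omega

/-- The exceptional set is finite, with at most half as many members as the dimension. -/
theorem exists_finset (o : J) (h1 : ∀ j, j ≠ o → (V j).NoCM)
    (h2 : ∀ s t, s ≠ o → t ≠ o → s ≠ t → Independent (V s) (V t)) :
    ∃ S : Finset J, o ∉ S ∧ 2 * S.card ≤ Fintype.card (B o) ∧
      ∀ i, i ≠ o → i ∉ S → ¬ Exceptional V o i := by
  classical
  have hb : ∀ S : Finset J, (∀ i ∈ S, i ≠ o ∧ Exceptional V o i) →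
      2 * S.card ≤ Fintype.card (B o) := by
    intro S hS
    exact bound V o S (fun j hj => h1 j (hS j hj).1)
      (fun s hs t ht hst => h2 s t (hS s hs).1 (hS t ht).1 hst) (fun j hj => (hS j hj).2)
  have hfin : {i | i ≠ o ∧ Exceptional V o i}.Finite := by
    by_contra hinf
    obtain ⟨S, hS, hcard⟩ := Set.Infinite.exists_subset_card_eq hinf (Fintype.card (B o) + 1)
    have h3 := hb S fun i hi => hS hi
    omega
  refine ⟨hfin.toFinset, ?_, hb _ fun i hi => hfin.mem_toFinset.1 hi, fun i hi hi' hex => ?_⟩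
  · intro h
    exact (hfin.mem_toFinset.1 h).1 rfl
  · exact hi' (hfin.mem_toFinset.2 ⟨hi, hex⟩)

/-- The elements which are concentrated at one factor. -/
theorem conc (o : J) (T : Finset J) (h1 : ∀ j ∈ T, (V j).NoCM)
    (h2 : ∀ s ∈ T, ∀ t ∈ T, s ≠ t → Independent (V s) (V t))
    (h3 : ∀ j ∈ T, ¬ Exceptional V o j) {i : J} (hi : i ∈ T) {y : Matrix (B i) (B i) ℂ}
    (hy : y ∈ g (DD V) i) :
    ∃ z ∈ G (DD V), z i = y ∧ z o = 0 ∧ ∀ t ∈ T, t ≠ i → z t = 0 := by
  let U : Submodule ℂ (Matrix (B i) (B i) ℂ) :=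
    { carrier := {y | ∃ z ∈ G (DD V), z i = y ∧ z o = 0 ∧ ∀ t ∈ T, t ≠ i → z t = 0}
      zero_mem' := ⟨0, Submodule.zero_mem _, rfl, rfl, fun _ _ _ => rfl⟩
      add_mem' := by
        rintro _ _ ⟨a, ha, rfl, ha', ha2⟩ ⟨b, hb, rfl, hb', hb2⟩
        exact ⟨a + b, Submodule.add_mem _ ha hb, rfl, by rw [Pi.add_apply, ha', hb', add_zero],
          fun t ht hti => by rw [Pi.add_apply, ha2 t ht hti, hb2 t ht hti, add_zero]⟩
      smul_mem' := by
        rintro r _ ⟨a, ha, rfl, ha', ha2⟩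
        exact ⟨r • a, Submodule.smul_mem _ _ ha, rfl, by rw [Pi.smul_apply, ha', smul_zero],
          fun t ht hti => by rw [Pi.smul_apply, ha2 t ht hti, smul_zero]⟩ }
  have hU : Submodule.span ℂ {z | ∃ x ∈ g (DD V) i, ∃ y ∈ g (DD V) i, z = x * y - y * x} ≤
      U := by
    rw [Submodule.span_le]
    rintro _ ⟨a, ha, b, hb, rfl⟩
    obtain ⟨a', ha', rfl⟩ := mem_g.1 ha
    obtain ⟨c, hc, hci, hct⟩ := split_fin V T h1 h2 ha' hi
    have h4 : ∀ y ∈ g (DD V) i, ∃ z ∈ G (DD V), z i = y ∧ z o = 0 := by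
      have := h3 i hi
      rwa [Exceptional, not_not] at this
    obtain ⟨d, hd, hdi, hdo⟩ := h4 b hb
    refine ⟨c * d - d * c, brk_mem hc hd, ?_, ?_, fun t ht hti => ?_⟩
    · change c i * d i - d i * c i = _
      rw [hci, hdi]
    · change c o * d o - d o * c o = _
      rw [hdo, mul_zero, zero_mul, sub_zero]
    · change c t * d t - d t * c t = _
      rw [hct t ht hti, mul_zero, zero_mul, sub_zero]
  exact hU (perf V (h1 i hi) hy)

/-- The operator of one factor extended by zero. -/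
theorem conc_D (o : J) (T : Finset J) (h1 : ∀ j ∈ T, j ≠ o → (V j).NoCM)
    (h2 : ∀ s ∈ T, ∀ t ∈ T, s ≠ o → t ≠ o → s ≠ t → Independent (V s) (V t))
    (h3 : ∀ j ∈ T, j ≠ o → ¬ Exceptional V o j) {i : J} (hi : i ∈ T) :
    ∃ z ∈ G (DD V), z i = (V i).D ∧ ∀ t ∈ T, t ≠ i → z t = 0 := by
  have hT : ∀ {j}, j ∈ T.erase o ↔ j ≠ o ∧ j ∈ T := Finset.mem_erase
  have h4 : ∀ i ∈ T.erase o, ∃ z ∈ G (DD V), z i = (V i).D ∧ z o = 0 ∧
      ∀ t ∈ T.erase o, t ≠ i → z t = 0 := by
    intro i hi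
    exact conc V o (T.erase o) (fun j hj => h1 j (hT.1 hj).2 (hT.1 hj).1)
      (fun s hs t ht => h2 s (hT.1 hs).2 t (hT.1 ht).2 (hT.1 hs).1 (hT.1 ht).1)
      (fun j hj => h3 j (hT.1 hj).2 (hT.1 hj).1) hi g_D
  by_cases hio : i = o
  · subst hio
    choose! z hz hzi hzo hzt using h4
    refine ⟨DD V - ∑ j ∈ T.erase i, z j, Submodule.sub_mem _ D_mem
      (Submodule.sum_mem _ fun j hj => hz j hj), ?_, fun t ht hti => ?_⟩
    · rw [Pi.sub_apply, Finset.sum_apply, Finset.sum_eq_zero fun j hj => hzo j hj, sub_zero]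
      rfl
    · rw [Pi.sub_apply, Finset.sum_apply, Finset.sum_eq_single t, hzi t (hT.2 ⟨hti, ht⟩)]
      · exact sub_self _
      · intro j hj hjt
        exact hzt j hj t (hT.2 ⟨hti, ht⟩) (Ne.symm hjt)
      · intro h
        exact absurd (hT.2 ⟨hti, ht⟩) h
  · obtain ⟨z, hz, hzi, hzo, hzt⟩ := h4 i (hT.2 ⟨hio, hi⟩)
    refine ⟨z, hz, hzi, fun t ht hti => ?_⟩
    by_cases hto : t = o
    · rw [hto]
      exact hzo
    · exact hzt t (hT.2 ⟨hto, ht⟩) hti

end bound

end Pool.Agent.R919.FE
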