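import Mathlib
import Pool.Agent.R919.FE.Exc2

/-!
# The action on tensors, Hodge classes on products
-/

set_option linter.unusedSectionVars false
set_option autoImplicit false

namespace Pool.Agent.R919.FE

open Matrix

section act

variable {κ : Type} [Fintype κ] [DecidableEq κ] {A : κ → Type} [∀ x, Fintype (A x)]
  [∀ x, DecidableEq (A x)]

/-- The action of a matrix on one factor. -/
noncomputable def act1 (x : κ) (M : Matrix (A x) (A x) ℂ) : Module.End ℂ ((∀ x, A x) → ℂ) where
  toFun := fun c I => ∑ b, M (I x) b * c (Function.update I x b)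
  map_add' := by
    intro c d
    funext I
    simp only [Pi.add_apply, mul_add, Finset.sum_add_distrib]
  map_smul' := by
    intro r c
    funext I
    simp only [Pi.smul_apply, smul_eq_mul, RingHom.id_apply, Finset.mul_sum]
    exact Finset.sum_congr rfl fun b _ => by ring

theorem act1_apply (x : κ) (M : Matrix (A x) (A x) ℂ) (c : (∀ x, A x) → ℂ) (I : ∀ x, A x) :
    act1 x M c I = ∑ b, M (I x) b * c (Function.update I x b) := rfl

theorem act1_add (x : κ) (M N : Matrix (A x) (A x) ℂ) :
    act1 x (M + N) = act1 x M + act1 x N := by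
  refine LinearMap.ext fun c => funext fun I => ?_
  simp only [act1_apply, LinearMap.add_apply, Pi.add_apply, Matrix.add_apply, add_mul,
    Finset.sum_add_distrib]

theorem act1_smul (x : κ) (r : ℂ) (M : Matrix (A x) (A x) ℂ) :
    act1 x (r • M) = r • act1 x M := by
  refine LinearMap.ext fun c => funext fun I => ?_
  simp only [act1_apply, LinearMap.smul_apply, Pi.smul_apply, Matrix.smul_apply, smul_eq_mul,
    Finset.mul_sum]
  exact Finset.sum_congr rfl fun b _ => by ring

theorem act1_zero (x : κ) : act1 x (0 : Matrix (A x) (A x) ℂ) = 0 := by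
  refine LinearMap.ext fun c => funext fun I => ?_
  simp [act1_apply]

theorem act1_sub (x : κ) (M N : Matrix (A x) (A x) ℂ) :
    act1 x (M - N) = act1 x M - act1 x N := by
  refine LinearMap.ext fun c => funext fun I => ?_
  simp only [act1_apply, LinearMap.sub_apply, Pi.sub_apply, Matrix.sub_apply, sub_mul,
    Finset.sum_sub_distrib]

theorem act1_mul (x : κ) (M N : Matrix (A x) (A x) ℂ) :
    act1 x (M * N) = act1 x M * act1 x N := by
  refine LinearMap.ext fun c => funext fun I => ?_
  rw [Module.End.mul_apply, act1_apply, act1_apply]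
  simp only [act1_apply, Matrix.mul_apply, Function.update_self, Function.update_idem,
    Finset.mul_sum, Finset.sum_mul]
  rw [Finset.sum_comm]
  exact Finset.sum_congr rfl fun b _ => Finset.sum_congr rfl fun b' _ => by ring

theorem act1_comm {x y : κ} (hxy : x ≠ y) (M : Matrix (A x) (A x) ℂ) (N : Matrix (A y) (A y) ℂ) :
    act1 x M * act1 y N = act1 y N * act1 x M := by
  refine LinearMap.ext fun c => funext fun I => ?_
  rw [Module.End.mul_apply, Module.End.mul_apply, act1_apply, act1_apply]
  simp only [act1_apply, Finset.mul_sum]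
  rw [Finset.sum_comm]
  refine Finset.sum_congr rfl fun b _ => Finset.sum_congr rfl fun b' _ => ?_
  rw [Function.update_of_ne hxy.symm, Function.update_of_ne hxy, Function.update_comm hxy]
  ring

/-- The action of a family of matrices. -/
noncomputable def act (z : ∀ x, Matrix (A x) (A x) ℂ) : Module.End ℂ ((∀ x, A x) → ℂ) :=
  ∑ x, act1 x (z x)

theorem act_apply (z : ∀ x, Matrix (A x) (A x) ℂ) (c : (∀ x, A x) → ℂ) (I : ∀ x, A x) :
    act z c I = ∑ x, ∑ b, z x (I x) b * c (Function.update I x b) := by
  rw [act, LinearMap.sum_apply, Finset.sum_apply]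
  rfl

theorem act_brk (z w : ∀ x, Matrix (A x) (A x) ℂ) :
    act (z * w - w * z) = act z * act w - act w * act z := by
  rw [act, act, act, Finset.sum_mul, Finset.sum_mul]
  simp only [Finset.mul_sum]
  rw [Finset.sum_comm (f := fun i j => act1 i (w i) * act1 j (z j)), ← Finset.sum_sub_distrib]
  refine Finset.sum_congr rfl fun x _ => ?_
  rw [← Finset.sum_sub_distrib, Finset.sum_eq_single x]
  · rw [← act1_mul, ← act1_mul, ← act1_sub]
    rfl
  · intro y _ hy
    rw [act1_comm hy, sub_self]
  · intro h
    exact absurd (Finset.mem_univ x) h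

end act

section fam

variable {J : Type} {B : J → Type} [∀ j, Fintype (B j)]
  [∀ j, DecidableEq (B j)] (V : ∀ j, HodgeStructure (B j)) {κ : Type} [Fintype κ]
  [DecidableEq κ] (f : κ → J)

/-- Complexification of a rational function. -/
def cc {Ω : Type} (c : Ω → ℚ) : Ω → ℂ := fun I => (c I : ℂ)

/-- A Hodge class is killed by the Lie algebra. -/
theorem killed {c : (∀ x, B (f x)) → ℚ} (hc : c ∈ hodgeClasses V f)
    {z : ∀ j, Matrix (B j) (B j) ℂ} (hz : z ∈ G (DD V)) :
    act (fun x => z (f x)) (cc c) = 0 := by
  let U : Submodule ℂ (∀ j, Matrix (B j) (B j) ℂ) :=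
    { carrier := {z | act (fun x => z (f x)) (cc c) = 0}
      zero_mem' := by
        funext I
        rw [act_apply]
        simp
      add_mem' := by
        intro a b ha hb
        have h : act (fun x => (a + b) (f x)) = act (fun x => a (f x)) + act fun x => b (f x) := by
          rw [act, act, act, ← Finset.sum_add_distrib]
          exact Finset.sum_congr rfl fun x _ => act1_add x _ _
        change act (fun x => (a + b) (f x)) (cc c) = 0
        rw [h, LinearMap.add_apply, show act (fun x => a (f x)) (cc c) = 0 from ha,
          show act (fun x => b (f x)) (cc c) = 0 from hb, add_zero]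
      smul_mem' := by
        intro r a ha
        have h : act (fun x => (r • a) (f x)) = r • act (fun x => a (f x)) := by
          rw [act, act, Finset.smul_sum]
          exact Finset.sum_congr rfl fun x _ => act1_smul x _ _
        change act (fun x => (r • a) (f x)) (cc c) = 0
        rw [h, LinearMap.smul_apply, show act (fun x => a (f x)) (cc c) = 0 from ha,
          smul_zero] }
  have hU : G (DD V) ≤ U := by
    refine G_le (fun σ => ?_) (fun a ha b hb => ?_)
    · change act (fun x => gal σ (DD V) (f x)) (cc c) = 0
      funext I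
      rw [act_apply]
      have h1 := congrArg σ (hc I)
      rw [map_sum, map_zero] at h1
      rw [Pi.zero_apply, ← h1]
      refine Finset.sum_congr rfl fun x _ => ?_
      rw [map_sum]
      refine Finset.sum_congr rfl fun b _ => ?_
      rw [map_mul, map_ratCast]
      rfl
    · have ha' : act (fun x => a (f x)) (cc c) = 0 := ha
      have hb' : act (fun x => b (f x)) (cc c) = 0 := hb
      change act (fun x => (a * b - b * a) (f x)) (cc c) = 0
      have h1 : (fun x => (a * b - b * a) (f x)) =
          (fun x => a (f x)) * (fun x => b (f x)) - (fun x => b (f x)) * fun x => a (f x) := rfl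
      rw [h1, act_brk, LinearMap.sub_apply, Module.End.mul_apply, Module.End.mul_apply, ha', hb',
        map_zero, map_zero, sub_zero]
  exact hU hz

/-- The Hodge classes are killed by the operators of the single factors. -/
theorem killed_one {c : (∀ x, B (f x)) → ℚ} (hc : c ∈ hodgeClasses V f) [DecidableEq J] (j : J)
    {z : ∀ j, Matrix (B j) (B j) ℂ} (hz : z ∈ G (DD V)) (hzj : z j = (V j).D)
    (hzt : ∀ x, f x ≠ j → z (f x) = 0) (I : ∀ x, B (f x)) :
    ∑ x with f x = j, ∑ b, (V (f x)).D (I x) b * (c (Function.update I x b) : ℂ) = 0 := by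
  have h1 := congrFun (killed V f hc hz) I
  rw [act_apply, Pi.zero_apply] at h1
  rw [← h1, Finset.sum_filter]
  refine Finset.sum_congr rfl fun x _ => ?_
  by_cases h : f x = j
  · rw [if_pos h]
    refine Finset.sum_congr rfl fun b _ => ?_
    have h2 : z (f x) = (V (f x)).D := by
      subst h
      exact hzj
    rw [h2]
    rfl
  · rw [if_neg h, hzt x h]
    simp

end fam

section linalg

/-- If a function of two variables is in `H` as a function of the first and in `M` as a function
of the second variable then its restriction to the diagonal is in `M * H`. -/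
theorem diag_mem {Ω : Type} [Finite Ω] (M H : Submodule ℚ (Ω → ℚ)) (F : Ω → Ω → ℚ)
    (h1 : ∀ I, (fun I' => F I' I) ∈ H) (h2 : ∀ I', (fun I => F I' I) ∈ M) :
    (fun I => F I I) ∈ M * H := by
  classical
  have := Fintype.ofFinite Ω
  obtain ⟨π, hπ⟩ := LinearMap.exists_leftInverse_of_injective H.subtype (Submodule.ker_subtype H)
  let b := Module.finBasis ℚ H
  -- the coordinates
  have h3 : (fun I => F I I) = ∑ k, (fun I => b.repr ⟨_, h1 I⟩ k) * (b k : Ω → ℚ) := by
    funext I
    have h4 := b.sum_repr ⟨_, h1 I⟩
    have h5 := congrFun (congrArg (Subtype.val : H → (Ω → ℚ)) h4) I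
    change _ = F I I at h5
    rw [← h5, AddSubmonoidClass.coe_finsetSum, Finset.sum_apply, Finset.sum_apply]
    exact Finset.sum_congr rfl fun k _ => rfl
  rw [h3]
  refine Submodule.sum_mem _ fun k _ => Submodule.mul_mem_mul ?_ (b k).2
  have h6 : (fun I => b.repr ⟨_, h1 I⟩ k) =
      ∑ I', b.repr (π (Pi.single I' 1)) k • (fun I => F I' I) := by
    funext I
    have h7 : (⟨_, h1 I⟩ : H) = π (fun I' => F I' I) := (LinearMap.congr_fun hπ ⟨_, h1 I⟩).symm
    have h8 : (fun I' => F I' I) = ∑ I', F I' I • (Pi.single I' (1 : ℚ) : Ω → ℚ) := by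
      funext J
      rw [Finset.sum_apply, Finset.sum_eq_single J]
      · rw [Pi.smul_apply, Pi.single_eq_same, smul_eq_mul, mul_one]
      · intro K _ hK
        rw [Pi.smul_apply, Pi.single_eq_of_ne (Ne.symm hK), smul_zero]
      · intro h
        exact absurd (Finset.mem_univ J) h
    rw [h7, h8, map_sum, map_sum, Finsupp.coe_finsetSum, Finset.sum_apply, Finset.sum_apply]
    refine Finset.sum_congr rfl fun I' _ => ?_
    rw [map_smul, map_smul, Finsupp.smul_apply, Pi.smul_apply, smul_eq_mul, smul_eq_mul, mul_comm]
  rw [h6]
  exact Submodule.sum_mem _ fun I' _ => Submodule.smul_mem _ _ (h2 I')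

end linalg

section prod

variable {J : Type} {B : J → Type} [∀ j, Fintype (B j)]
  [∀ j, DecidableEq (B j)] (V : ∀ j, HodgeStructure (B j)) {κ : Type} [Fintype κ]
  [DecidableEq κ] (f : κ → J) [DecidableEq J]

/-- The condition of a Hodge class for the factor `j`. -/
def Cond (j : J) (c : (∀ x, B (f x)) → ℚ) : Prop :=
  ∀ I, ∑ x with f x = j, ∑ b, (V (f x)).D (I x) b * (c (Function.update I x b) : ℂ) = 0

/-- The coordinates of the factor `j` from `I'` and the other ones from `I`. -/
def mix (j : J) (I' I : ∀ x, B (f x)) : ∀ x, B (f x) := fun x => if f x = j then I' x else I x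

theorem mix_self (j : J) (I : ∀ x, B (f x)) : mix f j I I = I := by
  funext x
  simp [mix]

theorem mix_update_left (j : J) (I' I : ∀ x, B (f x)) {x : κ} (hx : f x = j) (b : B (f x)) :
    mix f j (Function.update I' x b) I = Function.update (mix f j I' I) x b := by
  funext y
  by_cases h : y = x
  · subst h
    simp [mix, hx]
  · simp [mix, Function.update_of_ne h]

theorem mix_update_right (j : J) (I' I : ∀ x, B (f x)) {x : κ} (hx : f x ≠ j) (b : B (f x)) :
    mix f j I' (Function.update I x b) = Function.update (mix f j I' I) x b := by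
  funext y
  by_cases h : y = x
  · subst h
    simp [mix, hx]
  · simp [mix, Function.update_of_ne h]

/-- A function which satisfies the conditions for all factors is a sum of products. -/
theorem mem_prod (W : Finset J) : ∀ c : (∀ x, B (f x)) → ℚ,
    (∀ I I', (∀ x, f x ∈ W → I x = I' x) → c I = c I') → (∀ j ∈ W, Cond V f j c) →
    c ∈ ∏ j ∈ W, hodgeClassesOf V f j := by
  induction W using Finset.induction_on with
  | empty =>
    intro c hc _
    rw [Finset.prod_empty]
    by_cases hne : Nonempty (∀ x, B (f x))
    · obtain ⟨I₀⟩ := hne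
      rw [Submodule.mem_one]
      refine ⟨c I₀, funext fun I => ?_⟩
      exact hc I₀ I fun x hx => absurd hx (Finset.notMem_empty _)
    · rw [not_nonempty_iff] at hne
      have h : c = 0 := Subsingleton.elim _ _
      rw [h]
      exact Submodule.zero_mem _
  | insert j W hj ih =>
    intro c hc hcond
    rw [Finset.prod_insert hj, mul_comm]
    have h1 : c = fun I => c (mix f j I I) := by
      funext I
      rw [mix_self]
    rw [h1]
    refine diag_mem _ _ (fun I' I => c (mix f j I' I)) (fun I => ?_) (fun I' => ?_)
    · refine ⟨fun I' I'' h => ?_, fun I' => ?_⟩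
      · refine congrArg c (funext fun x => ?_)
        by_cases hx : f x = j
        · simp [mix, hx, h x hx]
        · simp [mix, hx]
      · rw [← hcond j (Finset.mem_insert_self j W) (mix f j I' I)]
        refine Finset.sum_congr rfl fun x hx => Finset.sum_congr rfl fun b _ => ?_
        have hx' : f x = j := (Finset.mem_filter.1 hx).2
        have e1 : mix f j (Function.update I' x b) I = Function.update (mix f j I' I) x b :=
          mix_update_left f j I' I hx' b
        have e2 : mix f j I' I x = I' x := if_pos hx'
        change _ * ((c (mix f j (Function.update I' x b) I) : ℚ) : ℂ) = _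
        rw [e1, e2]
    · refine ih _ (fun I I'' h => ?_) (fun t ht I => ?_)
      · refine hc _ _ fun x hx => ?_
        by_cases hx' : f x = j
        · simp [mix, hx']
        · have hx2 : f x ∈ W := (Finset.mem_insert.1 hx).resolve_left hx'
          simp [mix, hx', h x hx2]
      · rw [← hcond t (Finset.mem_insert_of_mem ht) (mix f j I' I)]
        refine Finset.sum_congr rfl fun x hx => Finset.sum_congr rfl fun b _ => ?_
        have hx' : f x = t := (Finset.mem_filter.1 hx).2
        have hx2 : f x ≠ j := by
          rintro rfl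
          rw [hx'] at hj
          exact hj ht
        have e1 : mix f j I' (Function.update I x b) = Function.update (mix f j I' I) x b :=
          mix_update_right f j I' I hx2 b
        have e2 : mix f j I' I x = I x := if_neg hx2
        change _ * ((c (mix f j I' (Function.update I x b)) : ℚ) : ℂ) = _
        rw [e1, e2]

/-- The main theorem. -/
theorem main (o : J) (h1 : ∀ j, j ≠ o → (V j).NoCM)
    (h2 : ∀ s t, s ≠ o → t ≠ o → s ≠ t → Independent (V s) (V t)) :
    ∃ S : Finset J, o ∉ S ∧ 2 * S.card ≤ Fintype.card (B o) ∧
      ∀ (κ : Type) [Fintype κ] [DecidableEq κ] (f : κ → J), (∀ x, f x ∉ S) →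
        hodgeClasses V f ≤ ∏ j ∈ Finset.univ.image f, hodgeClassesOf V f j := by
  obtain ⟨S, hS1, hS2, hS3⟩ := exists_finset V o h1 h2
  refine ⟨S, hS1, hS2, fun κ _ _ f hf c hc => ?_⟩
  have hT : ∀ j ∈ Finset.univ.image f, j ∉ S := by
    intro j hj
    obtain ⟨x, _, rfl⟩ := Finset.mem_image.1 hj
    exact hf x
  refine mem_prod V f _ c (fun I I' h => ?_) (fun j hj I => ?_)
  · exact congrArg c (funext fun x => h x (Finset.mem_image_of_mem f (Finset.mem_univ x)))
  · obtain ⟨z, hz, hzj, hzt⟩ := conc_D V o (Finset.univ.image f) (fun j _ hjo => h1 j hjo)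
      (fun s _ t _ hso hto => h2 s t hso hto) (fun j hj hjo => hS3 j hjo (hT j hj)) hj
    exact killed_one V f hc j hz hzj (fun x hx => hzt _ (Finset.mem_image_of_mem f
      (Finset.mem_univ x)) hx) I

end prod

end Pool.Agent.R919.FE
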