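import Mathlib
import Pool.Agent.R919.FE.Tens

/-!
# Relations between the eigenvalues which come from invariant tensors
-/

set_option linter.unusedSectionVars false
set_option autoImplicit false

namespace Pool.Agent.R919.FE

open Matrix

section abstract_

variable {E : Type*} [AddCommGroup E] [Module ℂ E] {κ : Type*} [DecidableEq κ]

/-- Projection to a common eigenspace of diagonalizable operators. -/
theorem exists_common (M : κ → Module.End ℂ E) (P : κ → ℤ × ℤ → Module.End ℂ E)
    (types : κ → Finset (ℤ × ℤ)) (w : ℤ × ℤ → ℤ) (R1 R2 : Module.End ℂ E) (K : Finset κ)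
    (hsum : ∀ y ∈ K, ∑ a ∈ types y, P y a = 1)
    (heig : ∀ y ∈ K, ∀ a ∈ types y, M y * P y a = (w a : ℂ) • P y a)
    (hR1 : ∀ y ∈ K, ∀ a ∈ types y, R1 * P y a = P y a * R1)
    (hR2 : ∀ y ∈ K, ∀ a ∈ types y, R2 * P y a = P y a * R2)
    (hM : ∀ y ∈ K, ∀ a ∈ types y, ∀ x, x ≠ y → M x * P y a = P y a * M x)
    (v : E) (hv1 : R1 v = 0) (hv2 : R2 v ≠ 0) :
    ∃ (v' : E) (m : κ → ℤ), R1 v' = 0 ∧ R2 v' ≠ 0 ∧ ∀ y ∈ K, M y v' = (m y : ℂ) • v' := by
  induction K using Finset.induction_on with
  | empty => exact ⟨v, fun _ => 0, hv1, hv2, fun y hy => absurd hy (Finset.notMem_empty y)⟩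
  | insert y K hy ih =>
    obtain ⟨v', m, h1, h2, h3⟩ := ih (fun x hx => hsum x (Finset.mem_insert_of_mem hx))
      (fun x hx => heig x (Finset.mem_insert_of_mem hx))
      (fun x hx => hR1 x (Finset.mem_insert_of_mem hx))
      (fun x hx => hR2 x (Finset.mem_insert_of_mem hx))
      (fun x hx => hM x (Finset.mem_insert_of_mem hx))
    have hyK := Finset.mem_insert_self y K
    obtain ⟨a, ha, h4⟩ : ∃ a ∈ types y, R2 (P y a v') ≠ 0 := by
      by_contra hcon
      push Not at hcon
      apply h2
      have h5 : v' = ∑ a ∈ types y, P y a v' := by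
        rw [← LinearMap.sum_apply, hsum y hyK, Module.End.one_apply]
      rw [h5, map_sum]
      exact Finset.sum_eq_zero hcon
    refine ⟨P y a v', Function.update m y (w a), ?_, h4, fun x hx => ?_⟩
    · rw [← Module.End.mul_apply, hR1 y hyK a ha, Module.End.mul_apply, h1, map_zero]
    · rcases Finset.mem_insert.1 hx with rfl | hx
      · rw [← Module.End.mul_apply, heig x hyK a ha, Function.update_self, LinearMap.smul_apply]
      · have hxy : x ≠ y := fun h => hy (h ▸ hx)
        rw [← Module.End.mul_apply, hM y hyK a ha x hxy, Module.End.mul_apply, h3 x hx, map_smul,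
          Function.update_of_ne hxy]

/-- Common eigenvectors of commuting operators. -/
theorem exists_eigvec [FiniteDimensional ℂ E] (M : κ → Module.End ℂ E) (K : Finset κ)
    (hM : ∀ x ∈ K, ∀ y ∈ K, x ≠ y → M x * M y = M y * M x) :
    ∀ U : Submodule ℂ E, U ≠ ⊥ → (∀ y ∈ K, ∀ u ∈ U, M y u ∈ U) →
      ∃ v ∈ U, v ≠ 0 ∧ ∀ y ∈ K, ∃ ρ : ℂ, M y v = ρ • v := by
  induction K using Finset.induction_on with
  | empty =>
    intro U hU _
    obtain ⟨v, hv, hv0⟩ := Submodule.exists_mem_ne_zero_of_ne_bot hU
    exact ⟨v, hv, hv0, fun y hy => absurd hy (Finset.notMem_empty y)⟩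
  | insert y K hy ih =>
    intro U hU hst
    have hyK := Finset.mem_insert_self y K
    have hne : Nontrivial U := Submodule.nontrivial_iff_ne_bot.2 hU
    obtain ⟨ρ, hρ⟩ := Module.End.exists_eigenvalue ((M y).restrict (hst y hyK))
    obtain ⟨u, hu⟩ := hρ.exists_hasEigenvector
    have hu1 : M y (u : E) = ρ • (u : E) := congrArg Subtype.val hu.apply_eq_smul
    have hu0 : (u : E) ≠ 0 := fun h => hu.2 (Subtype.ext h)
    obtain ⟨v, hv, hv0, hv1⟩ := ih (fun x hx z hz => hM x (Finset.mem_insert_of_mem hx) z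
      (Finset.mem_insert_of_mem hz)) (U ⊓ LinearMap.ker (M y - ρ • (1 : Module.End ℂ E)))
      (by
        rw [Submodule.ne_bot_iff]
        refine ⟨(u : E), ⟨u.2, ?_⟩, hu0⟩
        change (M y - ρ • (1 : Module.End ℂ E)) (u : E) = 0
        rw [LinearMap.sub_apply, LinearMap.smul_apply, Module.End.one_apply, hu1, sub_self])
      (by
        rintro x hx t ⟨ht1, ht2⟩
        refine ⟨hst x (Finset.mem_insert_of_mem hx) t ht1, ?_⟩
        have ht3 : (M y - ρ • (1 : Module.End ℂ E)) t = 0 := ht2
        rw [LinearMap.sub_apply, LinearMap.smul_apply, Module.End.one_apply, sub_eq_zero] at ht3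
        change (M y - ρ • (1 : Module.End ℂ E)) (M x t) = 0
        have hxy : x ≠ y := fun h => hy (h ▸ hx)
        rw [LinearMap.sub_apply, LinearMap.smul_apply, Module.End.one_apply,
          ← Module.End.mul_apply, hM y hyK x (Finset.mem_insert_of_mem hx) hxy.symm,
          Module.End.mul_apply, ht3, map_smul, sub_self])
    refine ⟨v, hv.1, hv0, fun x hx => ?_⟩
    rcases Finset.mem_insert.1 hx with rfl | hx
    · refine ⟨ρ, ?_⟩
      have h5 : (M x - ρ • (1 : Module.End ℂ E)) v = 0 := hv.2
      rwa [LinearMap.sub_apply, LinearMap.smul_apply, Module.End.one_apply, sub_eq_zero] at h5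
    · exact hv1 x hx

end abstract_

section act

variable {κ : Type} [Fintype κ] [DecidableEq κ] {A : κ → Type} [∀ x, Fintype (A x)]
  [∀ x, DecidableEq (A x)]

theorem act1_one (x : κ) : act1 x (1 : Matrix (A x) (A x) ℂ) = 1 := by
  refine LinearMap.ext fun c => funext fun I => ?_
  rw [act1_apply, Module.End.one_apply, Finset.sum_eq_single (I x)]
  · rw [Matrix.one_apply_eq, one_mul, Function.update_eq_self]
  · intro b _ hb
    rw [Matrix.one_apply_ne (Ne.symm hb), zero_mul]
  · intro h
    exact absurd (Finset.mem_univ _) h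

theorem act1_sum (x : κ) {ι : Type*} (S : Finset ι) (M : ι → Matrix (A x) (A x) ℂ) :
    act1 x (∑ a ∈ S, M a) = ∑ a ∈ S, act1 x (M a) := by
  classical
  induction S using Finset.induction_on with
  | empty => rw [Finset.sum_empty, Finset.sum_empty, act1_zero]
  | insert a S ha ih => rw [Finset.sum_insert ha, Finset.sum_insert ha, act1_add, ih]

/-- The eigenvalues of the action on one factor are eigenvalues of the matrix. -/
theorem act1_eig (x : κ) (N : Matrix (A x) (A x) ℂ) {v : (∀ x, A x) → ℂ} (hv : v ≠ 0) {ρ : ℂ}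
    (h : act1 x N v = ρ • v) : ρ ∈ N.charpoly.roots := by
  rw [Polynomial.mem_roots (Matrix.charpoly_monic N).ne_zero,
    ← Matrix.mem_spectrum_iff_isRoot_charpoly, spectrum.mem_iff]
  rintro ⟨u, hu⟩
  apply hv
  have h1 : act1 x ((u : Matrix (A x) (A x) ℂ)) v = 0 := by
    rw [hu, act1_sub, Algebra.algebraMap_eq_smul_one, act1_smul, act1_one, LinearMap.sub_apply,
      LinearMap.smul_apply, Module.End.one_apply, h, sub_self]
  have h2 : act1 x ((u⁻¹ : (Matrix (A x) (A x) ℂ)ˣ) : Matrix (A x) (A x) ℂ)
      (act1 x ((u : Matrix (A x) (A x) ℂ)) v) = v := by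
    rw [← Module.End.mul_apply, ← act1_mul, Units.inv_mul, act1_one, Module.End.one_apply]
  rw [← h2, h1, map_zero]

end act

section key

variable {J : Type} {B : J → Type} [DecidableEq J] [∀ j, Fintype (B j)]
  [∀ j, DecidableEq (B j)] (V : ∀ j, HodgeStructure (B j)) {κ : Type} [Fintype κ]
  [DecidableEq κ] (f : κ → J)

/-- The action of the operator of the factors `j`. -/
noncomputable def opB (j : J) : Module.End ℂ ((∀ x, B (f x)) → ℂ) :=
  ∑ x with f x = j, act1 x (V (f x)).D

theorem cond_iff (j : J) (c : (∀ x, B (f x)) → ℚ) : Cond V f j c ↔ opB V f j (cc c) = 0 := by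
  constructor
  · intro h
    funext I
    rw [opB, LinearMap.sum_apply, Finset.sum_apply]
    exact h I
  · intro h I
    have h1 := congrFun h I
    rw [opB, LinearMap.sum_apply, Finset.sum_apply] at h1
    exact h1

variable {V f}

theorem e_comm_D {B : Type} [Fintype B] [DecidableEq B] (V : HodgeStructure B) {a : ℤ × ℤ}
    (ha : a ∈ V.types) : V.D * V.e a = V.e a * V.D := by
  rw [V.D_eq, V.sum_mul_e (fun a => ((dl a : ℤ) : ℂ)) ha,
    V.e_mul_sum (fun a => ((dl a : ℤ) : ℂ)) ha]

/-- An invariant tensor which is not killed by the operator of the factors `j` gives a relation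
between the eigenvalues. -/
theorem relation (o : J) (z : ∀ j, Matrix (B j) (B j) ℂ) (lam : J → ℂ)
    (hz : ∀ x, f x ≠ o → z (f x) = lam (f x) • (V (f x)).D) (c : (∀ x, B (f x)) → ℂ)
    (hc : act (fun x => z (f x)) c = 0) {j : J} (hj : opB V f j c ≠ 0) (hjo : j ≠ o) :
    ∃ m : κ → ℤ, ∑ x with f x = j, m x ≠ 0 ∧
      ∑ x with f x ≠ o, lam (f x) * (m x : ℂ) ∈
        Submodule.span ℚ ((z o).charpoly.roots.toFinset : Set ℂ) := by
  classical
  set K : Finset κ := Finset.univ.filter fun x => f x ≠ o with hK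
  set Ko : Finset κ := Finset.univ.filter fun x => f x = o with hKo
  set M : κ → Module.End ℂ ((∀ x, B (f x)) → ℂ) := fun x => act1 (A := fun x => B (f x)) x (V (f x)).D with hMdef
  have hmemK : ∀ x, x ∈ K ↔ f x ≠ o := fun x => by rw [hK, Finset.mem_filter]; simp
  have hact : act (fun x => z (f x)) = ∑ x ∈ K, lam (f x) • M x +
      ∑ x ∈ Ko, act1 (A := fun x => B (f x)) x (z (f x)) := by
    rw [act, ← Finset.sum_filter_add_sum_filter_not Finset.univ (fun x => f x ≠ o)]
    congr 1
    · refine Finset.sum_congr rfl fun x hx => ?_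
      rw [hz x ((Finset.mem_filter.1 hx).2), act1_smul]
    · refine Finset.sum_congr ?_ fun x _ => rfl
      ext x
      rw [hKo, Finset.mem_filter, Finset.mem_filter, not_not]
  -- commutation with the projectors
  have hPcomm : ∀ y ∈ K, ∀ a ∈ (V (f y)).types, ∀ (x : κ) (N : Matrix (B (f x)) (B (f x)) ℂ),
      x ≠ y → act1 (A := fun x => B (f x)) x N * act1 (A := fun x => B (f x)) y ((V (f y)).e a) = act1 (A := fun x => B (f x)) y ((V (f y)).e a) * act1 (A := fun x => B (f x)) x N := by
    intro y _ a _ x N hxy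
    exact act1_comm (A := fun x => B (f x)) hxy N _
  have hPD : ∀ y, ∀ a ∈ (V (f y)).types,
      M y * act1 (A := fun x => B (f x)) y ((V (f y)).e a) = act1 (A := fun x => B (f x)) y ((V (f y)).e a) * M y := by
    intro y a ha
    rw [hMdef]
    change act1 (A := fun x => B (f x)) y (V (f y)).D * act1 (A := fun x => B (f x)) y ((V (f y)).e a) = act1 (A := fun x => B (f x)) y ((V (f y)).e a) * act1 (A := fun x => B (f x)) y (V (f y)).D
    rw [← act1_mul, ← act1_mul, e_comm_D (V (f y)) ha]
  obtain ⟨v, m, hv1, hv2, hv3⟩ := exists_common M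
    (fun y a => act1 (A := fun x => B (f x)) y ((V (f y)).e a)) (fun y => (V (f y)).types) dl
    (act fun x => z (f x)) (opB V f j) K
    (by
      intro y _
      rw [← act1_sum, (V (f y)).sum, act1_one])
    (by
      intro y _ a ha
      change act1 (A := fun x => B (f x)) y (V (f y)).D * act1 (A := fun x => B (f x)) y ((V (f y)).e a) = _
      rw [← act1_mul, (V (f y)).D_eq, (V (f y)).sum_mul_e (fun a => ((dl a : ℤ) : ℂ)) ha,
        act1_smul])
    (by
      intro y hy a ha
      rw [hact, add_mul, mul_add, Finset.sum_mul, Finset.mul_sum, Finset.sum_mul, Finset.mul_sum]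
      congr 1
      · refine Finset.sum_congr rfl fun x _ => ?_
        rw [smul_mul_assoc, mul_smul_comm]
        congr 1
        by_cases hxy : x = y
        · subst hxy
          exact hPD x a ha
        · exact hPcomm y hy a ha x _ hxy
      · refine Finset.sum_congr rfl fun x hx => ?_
        have hxy : x ≠ y := by
          rintro rfl
          exact (hmemK x).1 hy (Finset.mem_filter.1 hx).2
        exact hPcomm y hy a ha x _ hxy)
    (by
      intro y hy a ha
      rw [opB, Finset.sum_mul, Finset.mul_sum]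
      refine Finset.sum_congr rfl fun x _ => ?_
      by_cases hxy : x = y
      · subst hxy
        exact hPD x a ha
      · exact hPcomm y hy a ha x _ hxy)
    (by
      intro y hy a ha x hxy
      exact hPcomm y hy a ha x _ hxy) c hc hj
  refine ⟨m, ?_, ?_⟩
  · intro h0
    apply hv2
    rw [opB, LinearMap.sum_apply]
    have h1 : ∀ x ∈ Finset.univ.filter (fun x => f x = j), act1 (A := fun x => B (f x)) x (V (f x)).D v =
        (m x : ℂ) • v := by
      intro x hx
      refine hv3 x ((hmemK x).2 ?_)
      rw [(Finset.mem_filter.1 hx).2]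
      exact hjo
    rw [Finset.sum_congr rfl h1, ← Finset.sum_smul, ← Int.cast_sum, h0, Int.cast_zero, zero_smul]
  · -- the eigenvalue of the action on the other factors
    set ν : ℂ := ∑ x ∈ K, lam (f x) * (m x : ℂ) with hν
    set A := ∑ x ∈ Ko, act1 (A := fun x => B (f x)) x (z (f x)) with hA
    have h1 : A v = (-ν) • v := by
      rw [hact, LinearMap.add_apply, LinearMap.sum_apply] at hv1
      have h2 : ∑ x ∈ K, (lam (f x) • M x) v = ν • v := by
        rw [hν, Finset.sum_smul]
        refine Finset.sum_congr rfl fun x hx => ?_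
        rw [LinearMap.smul_apply, hv3 x hx, smul_smul]
      rw [h2] at hv1
      rw [neg_smul]
      exact eq_neg_of_add_eq_zero_right hv1
    have hv0 : v ≠ 0 := by
      rintro rfl
      exact hv2 (map_zero _)
    have hcomm : ∀ x ∈ Ko, ∀ y ∈ Ko, x ≠ y →
        act1 (A := fun x => B (f x)) x (z (f x)) * act1 (A := fun x => B (f x)) y (z (f y)) = act1 (A := fun x => B (f x)) y (z (f y)) * act1 (A := fun x => B (f x)) x (z (f x)) :=
      fun x _ y _ hxy => act1_comm (A := fun x => B (f x)) hxy _ _
    obtain ⟨u, hu, hu0, hu1⟩ := exists_eigvec (fun x => act1 (A := fun x => B (f x)) x (z (f x))) Ko hcomm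
      (LinearMap.ker (A - (-ν) • (1 : Module.End ℂ ((∀ x, B (f x)) → ℂ))))
      (by
        rw [Submodule.ne_bot_iff]
        refine ⟨v, ?_, hv0⟩
        rw [LinearMap.mem_ker, LinearMap.sub_apply, LinearMap.smul_apply, Module.End.one_apply,
          h1, sub_self])
      (by
        intro y hy t ht
        rw [LinearMap.mem_ker, LinearMap.sub_apply, LinearMap.smul_apply, Module.End.one_apply,
          sub_eq_zero] at ht ⊢
        have h3 : A * act1 (A := fun x => B (f x)) y (z (f y)) = act1 (A := fun x => B (f x)) y (z (f y)) * A := by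
          rw [hA, Finset.sum_mul, Finset.mul_sum]
          refine Finset.sum_congr rfl fun x hx => ?_
          by_cases hxy : x = y
          · rw [hxy]
          · exact hcomm x hx y hy hxy
        rw [← Module.End.mul_apply, h3, Module.End.mul_apply, ht, map_smul])
    rw [LinearMap.mem_ker, LinearMap.sub_apply, LinearMap.smul_apply, Module.End.one_apply,
      sub_eq_zero] at hu
    choose! ρ hρ using hu1
    have h4 : -ν = ∑ x ∈ Ko, ρ x := by
      have h5 : (∑ x ∈ Ko, ρ x) • u = (-ν) • u := by
        rw [← hu, hA, LinearMap.sum_apply, Finset.sum_smul]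
        exact Finset.sum_congr rfl fun x hx => (hρ x hx).symm
      exact (smul_left_injective ℂ hu0 h5).symm
    have h6 : -ν ∈ Submodule.span ℚ ((z o).charpoly.roots.toFinset : Set ℂ) := by
      rw [h4]
      refine Submodule.sum_mem _ fun x hx => Submodule.subset_span ?_
      rw [Finset.mem_coe, Multiset.mem_toFinset]
      have h7 := act1_eig (A := fun x => B (f x)) x (z (f x)) hu0 (hρ x hx)
      have h8 : f x = o := (Finset.mem_filter.1 hx).2
      rw [← congrArg (fun j => (z j).charpoly.roots) h8]
      exact h7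
    have h9 := Submodule.neg_mem _ h6
    rw [neg_neg] at h9
    exact h9

end key

end Pool.Agent.R919.FE
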