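import Mathlib
import Pool.Agent.R919.FE.Sig
import Pool.Agent.R919.FE.Defs2

/-!
# Few exceptional members of an arbitrary independent family
-/

set_option linter.unusedSectionVars false
set_option autoImplicit false

namespace Pool.Agent.R919.FE

open Matrix

variable {J : Type} {B : J → Type} [DecidableEq J] [∀ j, Fintype (B j)]
  [∀ j, DecidableEq (B j)] (V : ∀ j, HodgeStructure (B j))

theorem hodgeLie_eq : hodgeLie V = G (DD V) := rfl

/-- The index `j` has to be left out besides the indices in `S`. -/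
def Bad (o : J) (S : J → Prop) (j : J) : Prop :=
  j ≠ o ∧ ∃ (κ : Type) (_ : Fintype κ) (_ : DecidableEq κ) (f : κ → J), (∀ x, ¬ S (f x)) ∧
    ∃ c ∈ hodgeClasses V f, ¬ Cond V f j c

variable {V}

theorem cond_of_notMem {κ : Type} [Fintype κ] [DecidableEq κ] {f : κ → J} {j : J}
    (h : ∀ x, f x ≠ j) (c : (∀ x, B (f x)) → ℚ) : Cond V f j c := by
  intro I
  have h1 : (Finset.univ.filter fun x => f x = j) = ∅ := by
    ext x
    simp [h x]
  rw [h1, Finset.sum_empty]

/-- One bad index gives a relation. -/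
theorem bad_relation {o : J} (i : ℕ → J) (n : ℕ) (hinj : ∀ a < n, ∀ b < n, i a = i b → a = b)
    (hne : ∀ k < n, i k ≠ o) (k : Fin n) {κ : Type} [Fintype κ] [DecidableEq κ] (f : κ → J)
    (hf : ∀ x, ¬ ∃ a < (k : ℕ), i a = f x) {c : (∀ x, B (f x)) → ℚ} (hc : c ∈ hodgeClasses V f)
    (hcond : ¬ Cond V f (i k) c) (m : Fin n → ℂ) (z : ∀ j, Matrix (B j) (B j) ℂ)
    (hz : z ∈ G (DD V)) (hz1 : ∀ a : Fin n, z (i a) = m a • (V (i a)).D)
    (hz2 : ∀ x, f x ≠ o → (∀ a : Fin n, i a ≠ f x) → z (f x) = 0) :
    ∃ r : Fin n → ℤ, r k ≠ 0 ∧ (∀ a : Fin n, (a : ℕ) < k → r a = 0) ∧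
      ∑ a : Fin n, m a * (r a : ℂ) ∈
        Submodule.span ℚ ((z o).charpoly.roots.toFinset : Set ℂ) := by
  classical
  set lam : J → ℂ := fun t => ∑ a : Fin n, if i a = t then m a else 0 with hlam
  have hlam1 : ∀ a : Fin n, lam (i a) = m a := by
    intro a
    rw [hlam]
    change ∑ b : Fin n, (if i b = i a then m b else 0) = m a
    rw [Finset.sum_eq_single a]
    · rw [if_pos rfl]
    · intro b _ hb
      rw [if_neg fun h => hb (Fin.ext (hinj b b.2 a a.2 h))]
    · intro h
      exact absurd (Finset.mem_univ a) h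
  have hlam2 : ∀ t, (∀ a : Fin n, i a ≠ t) → lam t = 0 := by
    intro t ht
    rw [hlam]
    exact Finset.sum_eq_zero fun a _ => if_neg (ht a)
  obtain ⟨w, h1, h2⟩ := relation (V := V) (f := f) o z lam (fun x hx => by
    by_cases h : ∃ a : Fin n, i a = f x
    · obtain ⟨a, ha⟩ := h
      rw [← ha, hlam1, hz1]
    · push Not at h
      rw [hz2 x hx h, hlam2 _ h, zero_smul]) (cc c) (killed V f hc hz)
    (fun h => hcond ((cond_iff V f (i k) c).2 h)) (hne k k.2)
  refine ⟨fun a => ∑ x with f x = i a, w x, h1, fun a ha => ?_, ?_⟩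
  · have h3 : (Finset.univ.filter fun x => f x = i a) = ∅ := by
      ext x
      have := hf x
      push Not at this
      simp [Ne.symm (this a ha)]
    change ∑ x with f x = i a, w x = 0
    rw [h3, Finset.sum_empty]
  · convert h2 using 1
    have h4 : ∀ a : Fin n, m a * ((∑ x with f x = i a, w x : ℤ) : ℂ) =
        ∑ x, if f x = i a then m a * (w x : ℂ) else 0 := by
      intro a
      rw [Int.cast_sum, Finset.mul_sum, Finset.sum_filter]
    rw [Finset.sum_congr rfl fun a _ => h4 a, Finset.sum_comm, Finset.sum_filter]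
    refine Finset.sum_congr rfl fun x _ => ?_
    by_cases h : ∃ a : Fin n, i a = f x
    · obtain ⟨a, ha⟩ := h
      rw [if_pos (by rw [← ha]; exact hne a a.2), ← ha, hlam1, Finset.sum_eq_single a]
      · rw [if_pos rfl]
      · intro b _ hb
        rw [if_neg fun h => hb (Fin.ext (hinj b b.2 a a.2 h.symm))]
      · intro h
        exact absurd (Finset.mem_univ a) h
    · push Not at h
      rw [hlam2 _ h, zero_mul, ite_self]
      exact Finset.sum_eq_zero fun a _ => if_neg (Ne.symm (h a))

/-- The bound for the length of a sequence of bad indices. -/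
theorem bad_bound {o : J} (hV : IndependentLie V o) (i : ℕ → J) (n : ℕ)
    (hi : ∀ k < n, Bad V o (fun t => ∃ a < k, i a = t) (i k)) :
    2 * n ≤ Fintype.card (B o) := by
  classical
  -- the data
  have hne : ∀ k < n, i k ≠ o := fun k hk => (hi k hk).1
  choose κ hκ1 hκ2 f hf c hc hcond using fun k : Fin n => (hi k k.2).2
  have hinj' : ∀ a < n, ∀ b < n, a < b → i a ≠ i b := by
    intro a _ b hb hab h
    obtain ⟨x, hx⟩ : ∃ x, f ⟨b, hb⟩ x = i b := by
      by_contra hcon
      push Not at hcon
      exact hcond ⟨b, hb⟩ (cond_of_notMem hcon _)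
    exact hf ⟨b, hb⟩ x ⟨a, hab, h.trans hx.symm⟩
  have hinj : ∀ a < n, ∀ b < n, i a = i b → a = b := by
    intro a ha b hb h
    rcases lt_trichotomy a b with h1 | h1 | h1
    · exact absurd h (hinj' a ha b hb h1)
    · exact h1
    · exact absurd h.symm (hinj' b hb a ha h1)
  set T : Finset J := ((Finset.univ.biUnion fun k : Fin n => Finset.univ.image (f k)) ∪
    Finset.univ.image fun a : Fin n => i a).erase o with hT
  have hT1 : ∀ a : Fin n, i a ∈ T := by
    intro a
    rw [hT, Finset.mem_erase]
    exact ⟨hne a a.2, Finset.mem_union_right _ (Finset.mem_image_of_mem (fun a : Fin n => i a)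
      (Finset.mem_univ a))⟩
  have hT2 : ∀ (k : Fin n) (x : κ k), f k x ≠ o → f k x ∈ T := by
    intro k x hx
    rw [hT, Finset.mem_erase]
    exact ⟨hx, Finset.mem_union_left _ (Finset.mem_biUnion.2 ⟨k, Finset.mem_univ k,
      Finset.mem_image_of_mem _ (Finset.mem_univ x)⟩)⟩
  choose Y hY hYi hYt using fun a : Fin n => hV T (Finset.notMem_erase _ _) (i a) (hT1 a)
  obtain ⟨μ, hμ⟩ := exists_indep n
  set z : ∀ j, Matrix (B j) (B j) ℂ := ∑ a, μ a • Y a with hzdef
  have hz : z ∈ G (DD V) := Submodule.sum_mem _ fun a _ => Submodule.smul_mem _ _ (hY a)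
  have hz1 : ∀ a : Fin n, z (i a) = μ a • (V (i a)).D := by
    intro a
    rw [hzdef, Finset.sum_apply, Finset.sum_eq_single a]
    · rw [Pi.smul_apply, hYi a]
    · intro b _ hb
      rw [Pi.smul_apply, hYt b (i a) (hT1 a) fun h => hb (Fin.ext (hinj a a.2 b b.2 h)).symm,
        smul_zero]
    · intro h
      exact absurd (Finset.mem_univ a) h
  have hz2 : ∀ t ∈ T, (∀ a : Fin n, i a ≠ t) → z t = 0 := by
    intro t ht h
    rw [hzdef, Finset.sum_apply]
    exact Finset.sum_eq_zero fun a _ => by
      rw [Pi.smul_apply, hYt a t ht (Ne.symm (h a)), smul_zero]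
  set E : Finset ℂ := (z o).charpoly.roots.toFinset with hE
  have hrel : ∀ k : Fin n, ∃ r : Fin n → ℤ, r k ≠ 0 ∧ (∀ a : Fin n, (a : ℕ) < k → r a = 0) ∧
      ∑ a : Fin n, μ a * (r a : ℂ) ∈ Submodule.span ℚ (E : Set ℂ) := by
    intro k
    let _ := hκ1 k
    let _ := hκ2 k
    exact bad_relation i n hinj hne k (f k) (hf k) (hc k) (hcond k) μ z hz hz1
      fun x hx h => hz2 _ (hT2 k x hx) h
  -- all numbers are in the span
  have hmem : ∀ N : ℕ, ∀ k : Fin n, n - k ≤ N → μ k ∈ Submodule.span ℚ (E : Set ℂ) := by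
    intro N
    induction N with
    | zero =>
      intro k hk
      have := k.2
      omega
    | succ N ih =>
      intro k hk
      obtain ⟨r, h1, h2, h3⟩ := hrel k
      rw [← Finset.add_sum_erase _ _ (Finset.mem_univ k)] at h3
      have h4 : ∑ a ∈ Finset.univ.erase k, μ a * (r a : ℂ) ∈ Submodule.span ℚ (E : Set ℂ) := by
        refine Submodule.sum_mem _ fun a ha => ?_
        rcases lt_trichotomy (a : ℕ) k with h5 | h5 | h5
        · rw [h2 a h5, Int.cast_zero, mul_zero]
          exact Submodule.zero_mem _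
        · exact absurd (Fin.ext h5) (Finset.ne_of_mem_erase ha)
        · have h6 := ih a (by have := a.2; omega)
          have h7 : μ a * (r a : ℂ) = ((r a : ℤ) : ℚ) • μ a := by
            rw [Rat.smul_def, Rat.cast_intCast, mul_comm]
          rw [h7]
          exact Submodule.smul_mem _ _ h6
      have h8 : μ k * (r k : ℂ) ∈ Submodule.span ℚ (E : Set ℂ) :=
        (Submodule.add_mem_iff_left _ h4).1 h3
      have h9 : μ k = (((r k : ℤ) : ℚ)⁻¹) • (μ k * (r k : ℂ)) := by
        have h6 : ((r k : ℤ) : ℂ) ≠ 0 := by exact_mod_cast h1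
        rw [Rat.smul_def]
        push_cast
        field_simp
      rw [h9]
      exact Submodule.smul_mem _ _ h8
  -- the count
  have hneg : ∀ a ∈ E, -a ∈ E := by
    intro a ha
    rw [hE, Multiset.mem_toFinset] at ha ⊢
    exact roots_neg (V o) (spG V hz o) ha
  have hcard : E.card ≤ Fintype.card (B o) := by
    calc E.card ≤ Multiset.card (z o).charpoly.roots := Multiset.toFinset_card_le _
      _ ≤ (z o).charpoly.natDegree := Polynomial.card_roots' _
      _ = Fintype.card (B o) := Matrix.charpoly_natDegree_eq_dim _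
  have h7 := rank_half E hneg
  have h1 : LinearIndependent ℚ (fun k : Fin n =>
      (⟨μ k, hmem n k (by omega)⟩ : Submodule.span ℚ (E : Set ℂ))) := by
    refine LinearIndependent.of_comp (Submodule.span ℚ (E : Set ℂ)).subtype ?_
    exact hμ
  have : FiniteDimensional ℚ (Submodule.span ℚ (E : Set ℂ)) :=
    FiniteDimensional.span_finset ℚ E
  have h2 := h1.fintype_card_le_finrank
  rw [Fintype.card_fin] at h2
  omega

variable (V) in
/-- Few members of an independent family have to be left out. -/
theorem exists_few {o : J} (hV : IndependentLie V o) :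
    ∃ S : Finset J, o ∉ S ∧ 2 * S.card ≤ Fintype.card (B o) ∧
      ∀ j, ¬ Bad V o (fun t => t ∈ S) j := by
  classical
  set P : ℕ → Prop := fun n => ∃ i : ℕ → J, ∀ k < n, Bad V o (fun t => ∃ a < k, i a = t) (i k)
    with hP
  obtain ⟨n, ⟨i, hi⟩, hn⟩ : ∃ n, P n ∧ ¬ P (n + 1) := by
    by_contra hcon
    push Not at hcon
    have h1 : ∀ n, P n := by
      intro n
      induction n with
      | zero => exact ⟨fun _ => o, fun k hk => absurd hk (Nat.not_lt_zero k)⟩
      | succ n ih => exact hcon n ih
    obtain ⟨i, hi⟩ := h1 (Fintype.card (B o) + 1)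
    have h2 := bad_bound hV i _ hi
    omega
  have hmemS : ∀ t, t ∈ (Finset.range n).image i ↔ ∃ a < n, i a = t := by
    intro t
    simp
  refine ⟨(Finset.range n).image i, ?_, ?_, fun j hj => hn ?_⟩
  · intro h
    obtain ⟨a, ha, ha'⟩ := (hmemS o).1 h
    exact (hi a ha).1 ha'
  · have h1 := bad_bound hV i n hi
    have h2 : ((Finset.range n).image i).card ≤ n := by
      calc ((Finset.range n).image i).card ≤ (Finset.range n).card := Finset.card_image_le
        _ = n := Finset.card_range n
    omega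
  · refine ⟨Function.update i n j, fun k hk => ?_⟩
    have hset : ∀ k ≤ n, (fun t => ∃ a < k, Function.update i n j a = t) =
        fun t => ∃ a < k, i a = t := by
      intro k hk
      funext t
      apply propext
      constructor
      · rintro ⟨a, ha, h⟩
        rw [Function.update_of_ne (by omega)] at h
        exact ⟨a, ha, h⟩
      · rintro ⟨a, ha, h⟩
        refine ⟨a, ha, ?_⟩
        rwa [Function.update_of_ne (by omega)]
    rcases Nat.lt_succ_iff_lt_or_eq.1 hk with h | rfl
    · rw [hset k h.le, Function.update_of_ne (by omega)]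
      exact hi k h
    · rw [hset k le_rfl, Function.update_self]
      have h3 : (fun t => t ∈ (Finset.range k).image i) = fun t => ∃ a < k, i a = t :=
        funext fun t => propext (hmemS t)
      rwa [h3] at hj

/-- **The general theorem.** -/
theorem few_of_lie {o : J} (hV : IndependentLie V o) :
    ∃ S : Finset J, o ∉ S ∧ 2 * S.card ≤ Fintype.card (B o) ∧
      ∀ (κ : Type) [Fintype κ] [DecidableEq κ] (f : κ → J), (∀ x, f x ∉ S) →
        hodgeClasses V f ≤ ∏ j ∈ Finset.univ.image f, hodgeClassesOf V f j := by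
  classical
  obtain ⟨S, hS1, hS2, hS3⟩ := exists_few V hV
  refine ⟨S, hS1, hS2, fun κ _ _ f hf c hc => ?_⟩
  have h1 : ∀ j, j ≠ o → Cond V f j c := by
    intro j hj
    by_contra hcon
    exact hS3 j ⟨hj, κ, inferInstance, inferInstance, f, hf, c, hc, hcon⟩
  have h2 : Cond V f o c := by
    rw [cond_iff]
    have h3 := killed V f hc D_mem
    have h4 : act (fun x => (V (f x)).D) = ∑ j ∈ Finset.univ.image f, opB V f j := by
      rw [act]
      simp only [opB]
      exact (Finset.sum_fiberwise_of_maps_to (fun x _ => Finset.mem_image_of_mem f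
        (Finset.mem_univ x)) _).symm
    by_cases ho : o ∈ Finset.univ.image f
    · have h5 : act (fun x => (V (f x)).D) (cc c) = 0 := h3
      rw [h4, ← Finset.add_sum_erase _ _ ho, LinearMap.add_apply, LinearMap.sum_apply,
        Finset.sum_eq_zero (fun j hj => (cond_iff V f j c).1 (h1 j (Finset.ne_of_mem_erase hj))),
        add_zero] at h5
      exact h5
    · rw [← cond_iff]
      exact cond_of_notMem (fun x hx => ho (Finset.mem_image.2 ⟨x, Finset.mem_univ x, hx⟩)) c
  refine mem_prod V f _ c (fun I I' h => ?_) (fun j hj => ?_)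
  · exact congrArg c (funext fun x => h x (Finset.mem_image_of_mem f (Finset.mem_univ x)))
  · by_cases hjo : j = o
    · rw [hjo]
      exact h2
    · exact h1 j hjo

end Pool.Agent.R919.FE
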