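import Mathlib
import Pool.Agent.R919.FE.Few
import Pool.Agent.R919.FF.Num

/-!
# A criterion for independence: members without CM, and with quadratic CM
-/

set_option linter.unusedSectionVars false
set_option autoImplicit false

namespace Pool.Agent.R919.FE

open Matrix Pool.Agent.R919.FF

section quad

variable {J : Type} {B : J → Type} [∀ j, Fintype (B j)] [∀ j, DecidableEq (B j)]
  {V : ∀ j, HodgeStructure (B j)}

/-- The conjugates of the operator. -/
theorem quad_map {B : Type} [Fintype B] [DecidableEq B] {V : HodgeStructure B} {d : ℤ} {c : ℂ}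
    {Z : Matrix B B ℚ} (hc : c ^ 2 = d) (hc0 : c ≠ 0) (hZ : V.D = c • Z.map (algebraMap ℚ ℂ))
    (σ : ℂ ≃+* ℂ) : V.D.map σ = ((sgn hc hc0 σ : ℚ) : ℂ) • V.D := by
  have h1 : V.D.map σ = σ c • Z.map (algebraMap ℚ ℂ) := by
    rw [hZ]
    ext a b
    simp
  rw [h1]
  rcases sgn_apply hc hc0 σ with ⟨h2, h3⟩ | ⟨h2, h3⟩
  · rw [h2, h3, Rat.cast_one, one_smul, hZ]
  · rw [h2, h3, hZ]
    push_cast
    rw [neg_smul, neg_smul, one_smul]

/-- The Lie algebra of a member with quadratic CM is spanned by one operator. -/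
theorem quad_g {t : J} {d : ℤ} (h : (V t).QuadraticCM d) {y : Matrix (B t) (B t) ℂ}
    (hy : y ∈ g (DD V) t) : ∃ r : ℂ, y = r • (V t).D := by
  obtain ⟨c, Z, hc, hZ⟩ := h
  have h1 : g (DD V) t ≤ Submodule.span ℂ {(V t).D} := by
    refine g_le (fun σ => ?_) (fun a ha b hb => ?_)
    · change (V t).D.map σ ∈ _
      by_cases hc0 : c = 0
      · rw [hZ, hc0, zero_smul]
        have h0 : (0 : Matrix (B t) (B t) ℂ).map σ = 0 := by
          ext a b
          simp
        rw [h0]
        exact Submodule.zero_mem _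
      · rw [quad_map hc hc0 hZ σ]
        exact Submodule.smul_mem _ _ (Submodule.mem_span_singleton_self _)
    · obtain ⟨r, rfl⟩ := Submodule.mem_span_singleton.1 ha
      obtain ⟨s, rfl⟩ := Submodule.mem_span_singleton.1 hb
      have h2 : (r • (V t).D) * (s • (V t).D) - (s • (V t).D) * (r • (V t).D) = 0 := by
        rw [smul_mul_smul_comm, smul_mul_smul_comm, mul_comm r s, sub_self]
      rw [h2]
      exact Submodule.zero_mem _
  obtain ⟨r, hr⟩ := Submodule.mem_span_singleton.1 (h1 hy)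
  exact ⟨r, hr.symm⟩

theorem quad_comm {t : J} {d : ℤ} (h : (V t).QuadraticCM d) {x y : Matrix (B t) (B t) ℂ}
    (hx : x ∈ g (DD V) t) (hy : y ∈ g (DD V) t) : x * y - y * x = 0 := by
  obtain ⟨r, rfl⟩ := quad_g h hx
  obtain ⟨s, rfl⟩ := quad_g h hy
  rw [smul_mul_smul_comm, smul_mul_smul_comm, mul_comm r s, sub_self]

end quad

section fin

variable {J : Type} {B : J → Type} [Fintype J] [DecidableEq J] [∀ j, Fintype (B j)]
  [∀ j, DecidableEq (B j)] {V : ∀ j, HodgeStructure (B j)}

theorem rp_zero_quad {s t : J} (hs : (V s).NoCM) {d : ℤ} (ht : (V t).QuadraticCM d)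
    {u : Matrix (B s) (B s) ℂ} (hu : u ∈ g (DD V) s) : rp V s u t = 0 := by
  have h1 := perf V hs hu
  have h2 : Submodule.span ℂ {z | ∃ x ∈ g (DD V) s, ∃ y ∈ g (DD V) s, z = x * y - y * x} ≤
      LinearMap.ker ((LinearMap.proj t : (∀ j, Matrix (B j) (B j) ℂ) →ₗ[ℂ] _) ∘ₗ rp V s) := by
    rw [Submodule.span_le]
    rintro _ ⟨x, hx, y, hy, rfl⟩
    obtain ⟨z, hz, rfl⟩ := mem_g.1 hx
    change rp V s (z s * y - y * z s) t = 0
    rw [rp_equiv V s y hz]
    exact quad_comm ht (mem_g.2 ⟨z, hz, rfl⟩) (mem_g.2 ⟨_, rp_mem V s y, rfl⟩)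
  exact h2 h1

theorem quad_rp_zero {s t : J} (hs : (V s).NoCM) {d : ℤ} (ht : (V t).QuadraticCM d)
    {u : Matrix (B t) (B t) ℂ} (hu : u ∈ g (DD V) t) : rp V t u s = 0 := by
  refine centre V hs (mem_g.2 ⟨_, rp_mem V t u, rfl⟩) fun x hx => ?_
  obtain ⟨z, hz, rfl⟩ := mem_g.1 hx
  have h1 := congrFun (rp_equiv V t u hz) s
  rw [quad_comm ht (mem_g.2 ⟨z, hz, rfl⟩) hu, map_zero] at h1
  have h2 : z s * rp V t u s - rp V t u s * z s = 0 := h1.symm
  exact (sub_eq_zero.1 h2).symm

/-- The criterion for finite families. -/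
theorem split_mixed (A : J → Prop) (d : J → ℤ) (hA : ∀ s, A s → (V s).NoCM)
    (hAA : ∀ s t, A s → A t → s ≠ t → Independent (V s) (V t))
    (hQ : ∀ s, ¬ A s → (V s).QuadraticCM (d s))
    (hQQ : ∀ s t, ¬ A s → ¬ A t → s ≠ t → ¬ IsSquare (d s * d t)) (s : J) :
    ∃ y ∈ G (DD V), y s = (V s).D ∧ ∀ t, t ≠ s → y t = 0 := by
  classical
  -- the members without CM
  have h1 : ∀ s t, A s → t ≠ s → ∀ u ∈ g (DD V) s, rp V s u t = 0 := by
    intro s t hs hts u hu
    by_cases ht : A t
    · exact rp_zero V (hA s hs) (hAA s t hs ht hts.symm) hu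
    · exact rp_zero_quad (hA s hs) (hQ t ht) hu
  have h2 : ∀ s t, A s → t ≠ s → ∀ u ∈ g (DD V) t, rp V t u s = 0 := by
    intro s t hs hts u hu
    by_cases ht : A t
    · exact rp_zero V (hA t ht) (hAA t s ht hs hts) hu
    · exact quad_rp_zero (hA s hs) (hQ t ht) hu
  have h3 : ∀ s, A s → rp V s (V s).D s = (V s).D := by
    intro s hs
    have hsum : DD V = ∑ t, rp V t (DD V t) := by
      refine tf_ext V D_mem (Submodule.sum_mem _ fun t _ => rp_mem V t _) fun w hw => ?_
      rw [map_sum, LinearMap.sum_apply, tf_apply]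
      exact Finset.sum_congr rfl fun t _ => (rp_spec V t _ hw).symm
    have h4 := congrFun hsum s
    rw [Finset.sum_apply, Finset.sum_eq_single s] at h4
    · exact h4.symm
    · intro t _ hts
      exact h2 s t hs hts _ g_D
    · intro h
      exact absurd (Finset.mem_univ s) h
  by_cases hs : A s
  · exact ⟨rp V s (V s).D, rp_mem V s _, h3 s hs, fun t hts => h1 s t hs hts _ g_D⟩
  -- the part of the members with CM
  set D' : ∀ j, Matrix (B j) (B j) ℂ :=
    DD V - ∑ t ∈ Finset.univ.filter A, rp V t (V t).D with hD'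
  have hD'mem : D' ∈ G (DD V) :=
    Submodule.sub_mem _ D_mem (Submodule.sum_mem _ fun t _ => rp_mem V t _)
  have hD'A : ∀ r, A r → D' r = 0 := by
    intro r hr
    rw [hD', Pi.sub_apply, Finset.sum_apply, Finset.sum_eq_single r]
    · rw [h3 r hr]
      exact sub_self _
    · intro t ht htr
      exact h1 t r (Finset.mem_filter.1 ht).2 htr.symm _ g_D
    · intro h
      exact absurd (Finset.mem_filter.2 ⟨Finset.mem_univ r, hr⟩) h
  have hD'Q : ∀ r, ¬ A r → D' r = (V r).D := by
    intro r hr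
    rw [hD', Pi.sub_apply, Finset.sum_apply, Finset.sum_eq_zero, sub_zero]
    · rfl
    · intro t ht
      have hA' := (Finset.mem_filter.1 ht).2
      exact h1 t r hA' (fun h => hr (h ▸ hA')) _ g_D
  choose! c Z hc hZ using hQ
  by_cases hcs : c s = 0
  · refine ⟨0, Submodule.zero_mem _, ?_, fun t _ => rfl⟩
    rw [hZ s hs, hcs, zero_smul]
    rfl
  have hc' : ∀ r : {r : J // ¬ A r ∧ c r ≠ 0}, (c r) ^ 2 = (d r : ℂ) := fun r => hc r r.2.1
  -- characters
  have h5 := char_indep (V := (∀ j, Matrix (B j) (B j) ℂ) ⧸ G (DD V))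
    (fun r : {r : J // ¬ A r ∧ c r ≠ 0} => sgn (hc' r) r.2.2) Finset.univ
    (by
      intro i _ j _ hij
      exact sgn_ne (hc' i) i.2.2 (hc' j) j.2.2
        (hQQ i j i.2.1 j.2.1 fun h => hij (Subtype.ext h)))
    (fun r => Submodule.Quotient.mk (Pi.single (r : J) (V r).D)) (by
      intro τ
      have h6 : ∑ r : {r : J // ¬ A r ∧ c r ≠ 0}, (sgn (hc' r) r.2.2 τ) •
          (Pi.single (r : J) (V r).D : ∀ j, Matrix (B j) (B j) ℂ) = gal τ D' := by
        funext t
        rw [gal_apply, Finset.sum_apply]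
        by_cases ht : ¬ A t ∧ c t ≠ 0
        · rw [Finset.sum_eq_single (⟨t, ht⟩ : {r : J // ¬ A r ∧ c r ≠ 0})]
          · rw [Pi.smul_apply, Pi.single_eq_same, hD'Q t ht.1, quad_map (hc t ht.1) ht.2
              (hZ t ht.1) τ]
            ext a b
            simp [Rat.smul_def]
          · intro r _ hr
            rw [Pi.smul_apply, Pi.single_eq_of_ne fun h => hr (Subtype.ext h.symm), smul_zero]
          · intro h
            exact absurd (Finset.mem_univ _) h
        · have h7 : D' t = 0 := by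
            by_cases hAt : A t
            · exact hD'A t hAt
            · have hct : c t = 0 := by
                by_contra h
                exact ht ⟨hAt, h⟩
              rw [hD'Q t hAt, hZ t hAt, hct, zero_smul]
          rw [h7, Finset.sum_eq_zero]
          · ext a b
            simp
          · intro r _
            rw [Pi.smul_apply, Pi.single_eq_of_ne, smul_zero]
            rintro rfl
            exact ht r.2
      have h8 : Submodule.Quotient.mk (p := G (DD V)) (gal τ D') = 0 :=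
        (Submodule.Quotient.mk_eq_zero _).2 (gal_mem τ hD'mem)
      rw [← h8, ← h6]
      change _ = (G (DD V)).mkQ _
      rw [map_sum]
      refine Finset.sum_congr rfl fun r _ => ?_
      rfl) ⟨s, hs, hcs⟩ (Finset.mem_univ _)
  have h9 : (Pi.single s (V s).D : ∀ j, Matrix (B j) (B j) ℂ) ∈ G (DD V) :=
    (Submodule.Quotient.mk_eq_zero _).1 h5
  exact ⟨_, h9, Pi.single_eq_same _ _, fun t hts => Pi.single_eq_of_ne hts _⟩

end fin

section main

variable {J : Type} {B : J → Type} [DecidableEq J] [∀ j, Fintype (B j)]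
  [∀ j, DecidableEq (B j)] {V : ∀ j, HodgeStructure (B j)}

/-- The criterion. -/
theorem Mixed.lie {o : J} {d : J → ℤ} (h : Mixed V o d) : IndependentLie V o := by
  intro T hoT i hi
  let φ : T → J := Subtype.val
  have hne : ∀ k : T, φ k ≠ o := fun k hk => hoT (hk ▸ k.2)
  obtain ⟨y, hy, hys, hyt⟩ := split_mixed (V := fun k => V (φ k))
    (fun k => (V (φ k)).NoCM ∧ ∀ j, j ≠ o → j ≠ φ k → (V j).NoCM →
      Independent (V (φ k)) (V j)) (fun k => d (φ k)) (fun s hs => hs.1)
    (fun s t hs ht hst => hs.2 _ (hne t) (fun h => hst (Subtype.ext h.symm)) ht.1)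
    (fun s hs => ((h _ (hne s)).resolve_left hs).1)
    (fun s t hs ht hst => ((h _ (hne s)).resolve_left hs).2 _ (hne t)
      (fun h => hst (Subtype.ext h.symm)) ((h _ (hne t)).resolve_left ht).1) ⟨i, hi⟩
  obtain ⟨z, hz, hzy⟩ := (mem_comp (D := DD V) φ).1 hy
  refine ⟨z, hz, ?_, fun t ht hti => ?_⟩
  · have h4 := congrFun hzy ⟨i, hi⟩
    exact h4.trans hys
  · have h4 := congrFun hzy ⟨t, ht⟩
    exact h4.trans (hyt ⟨t, ht⟩ fun h => hti (congrArg Subtype.val h))

/-- **Few exceptional members.** -/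
theorem few {o : J} (h : IndependentFamily V o) :
    ∃ S : Finset J, o ∉ S ∧ 2 * S.card ≤ Fintype.card (B o) ∧
      ∀ (κ : Type) [Fintype κ] [DecidableEq κ] (f : κ → J), (∀ x, f x ∉ S) →
        hodgeClasses V f ≤ ∏ j ∈ Finset.univ.image f, hodgeClassesOf V f j := by
  rcases h with h | ⟨d, h⟩
  · exact few_of_lie h
  · exact few_of_lie h.lie

end main

end Pool.Agent.R919.FE
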